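import Mathlib
import Pool.Agent.E456.Mertens

/-!
# The proportion of integers without small prime factors
-/

namespace Pool.Agent.E25C

open Finset

/-- The product of the primes up to `X` which do not divide `M`. -/
def PP (X M : ℕ) : ℕ := ∏ p ∈ (Ioc 0 X).filter (fun p => p.Prime ∧ ¬ p ∣ M), p

lemma PP_pos (X M : ℕ) : 0 < PP X M :=
  prod_pos fun _ hp => (mem_filter.mp hp).2.1.pos

lemma PP_coprime (X M : ℕ) : Nat.Coprime M (PP X M) := by
  unfold PP
  refine Nat.Coprime.prod_right fun p hp => ?_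
  have hp' := (mem_filter.mp hp).2
  exact ((Nat.Prime.coprime_iff_not_dvd hp'.1).mpr hp'.2).symm

lemma dvd_PP {X M p : ℕ} (hp : p.Prime) (hX : p ≤ X) (hM : ¬ p ∣ M) : p ∣ PP X M := by
  unfold PP
  exact dvd_prod_of_mem (fun p : ℕ => p) (mem_filter.mpr ⟨mem_Ioc.mpr ⟨hp.pos, hX⟩, hp, hM⟩)

lemma primeFactors_PP (X M : ℕ) : (PP X M).primeFactors ⊆ (Ioc 0 X).filter Nat.Prime := by
  intro p hp
  have h1 := Nat.prime_of_mem_primeFactors hp
  have h2 := Nat.dvd_of_mem_primeFactors hp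
  unfold PP at h2
  rw [h1.prime.dvd_finsetProd_iff] at h2
  obtain ⟨q, hq, h3⟩ := h2
  have hq' := mem_filter.mp hq
  have : p = q := (Nat.prime_dvd_prime_iff_eq h1 hq'.2.1).mp h3
  rw [this]
  exact mem_filter.mpr ⟨hq'.1, hq'.2.1⟩

lemma sum_tel (X : ℕ) : ∑ p ∈ (Ioc 0 X).filter Nat.Prime, (1 : ℝ) / (p * (p - 1)) ≤ 1 := by
  have h1 : ∀ Y : ℕ, ∑ n ∈ Ioc 1 (Y + 1), (1 : ℝ) / (n * (n - 1)) = 1 - 1 / (Y + 1) := by
    intro Y
    induction Y with
    | zero => simp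
    | succ Y ih =>
      have h2 : Ioc 1 (Y + 1 + 1) = insert (Y + 2) (Ioc 1 (Y + 1)) := by
        ext m; simp only [mem_Ioc, mem_insert]; omega
      rw [h2, sum_insert (by simp), ih]
      push_cast
      have h3 : ((Y : ℝ) + 2) ≠ 0 := by positivity
      have h4 : ((Y : ℝ) + 1) ≠ 0 := by positivity
      have h5 : ((Y : ℝ) + 2 - 1) = Y + 1 := by ring
      have h6 : ((Y : ℝ) + 1 + 1) = Y + 2 := by ring
      rw [h5, h6]
      field_simp
      ring
  calc ∑ p ∈ (Ioc 0 X).filter Nat.Prime, (1 : ℝ) / (p * (p - 1))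
      ≤ ∑ n ∈ Ioc 1 (X + 1), (1 : ℝ) / (n * (n - 1)) := by
        refine Finset.sum_le_sum_of_subset_of_nonneg ?_ ?_
        · intro p hp
          have h2 := mem_filter.mp hp
          have h3 := mem_Ioc.mp h2.1
          have h4 := h2.2.two_le
          exact mem_Ioc.mpr ⟨by omega, by omega⟩
        · intro n hn _
          have h3 := mem_Ioc.mp hn
          have h4 : (1 : ℝ) < n := by exact_mod_cast h3.1
          have h5 : (0 : ℝ) < n - 1 := by linarith
          positivity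
    _ ≤ 1 := by
        rw [h1]
        have : (0 : ℝ) ≤ 1 / ((X : ℝ) + 1) := by positivity
        linarith

lemma totient_PP (X M : ℕ) :
    Real.exp (-(Pool.Agent.E456.S1 X + 1)) ≤ ((PP X M).totient : ℝ) / PP X M := by
  have hP := PP_pos X M
  have hP' : (0 : ℝ) < PP X M := by exact_mod_cast hP
  have h1 : ((PP X M).totient : ℝ) = PP X M * ∏ p ∈ (PP X M).primeFactors, (1 - (p : ℝ)⁻¹) := by
    have := Nat.totient_eq_mul_prod_factors (PP X M)
    have h2 : (((PP X M).totient : ℚ) : ℝ)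
        = (((PP X M : ℚ) * ∏ p ∈ (PP X M).primeFactors, (1 - (p : ℚ)⁻¹) : ℚ) : ℝ) := by rw [this]
    push_cast at h2
    exact h2
  rw [h1, mul_div_cancel_left₀ _ hP'.ne']
  have h2 : ∏ p ∈ (Ioc 0 X).filter Nat.Prime, (1 - (p : ℝ)⁻¹)
      ≤ ∏ p ∈ (PP X M).primeFactors, (1 - (p : ℝ)⁻¹) := by
    have hpos : ∀ p ∈ (Ioc 0 X).filter Nat.Prime, (0 : ℝ) ≤ 1 - (p : ℝ)⁻¹ ∧ 1 - (p : ℝ)⁻¹ ≤ 1 := by
      intro p hp
      have h3 : (1 : ℝ) ≤ p := by exact_mod_cast (mem_filter.mp hp).2.pos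
      have h4 : (p : ℝ)⁻¹ ≤ 1 := inv_le_one_of_one_le₀ h3
      have h5 : (0 : ℝ) ≤ (p : ℝ)⁻¹ := by positivity
      constructor <;> linarith
    rw [← Finset.prod_sdiff (primeFactors_PP X M)]
    have h6 : ∏ p ∈ (Ioc 0 X).filter Nat.Prime \ (PP X M).primeFactors, (1 - (p : ℝ)⁻¹) ≤ 1 :=
      Finset.prod_le_one (fun p hp => (hpos p (mem_sdiff.mp hp).1).1)
        (fun p hp => (hpos p (mem_sdiff.mp hp).1).2)
    have h7 : 0 ≤ ∏ p ∈ (PP X M).primeFactors, (1 - (p : ℝ)⁻¹) :=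
      Finset.prod_nonneg fun p hp => (hpos p (primeFactors_PP X M hp)).1
    exact mul_le_of_le_one_left h7 h6
  refine le_trans ?_ h2
  have h3 : ∀ p ∈ (Ioc 0 X).filter Nat.Prime,
      Real.exp (-(1 / (p : ℝ) + 1 / (p * (p - 1)))) ≤ 1 - (p : ℝ)⁻¹ := by
    intro p hp
    have h4 : (2 : ℝ) ≤ p := by exact_mod_cast (mem_filter.mp hp).2.two_le
    have h5 : (0 : ℝ) < (p : ℝ) - 1 := by linarith
    have h6 : 1 / (p : ℝ) + 1 / (p * (p - 1)) = 1 / (p - 1) := by
      have : (p : ℝ) ≠ 0 := by linarith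
      field_simp
      ring
    rw [h6, Real.exp_neg]
    have h7 : (p : ℝ) / (p - 1) ≤ Real.exp (1 / (p - 1)) := by
      have := Real.add_one_le_exp (1 / ((p : ℝ) - 1))
      have h8 : (p : ℝ) / (p - 1) = 1 / (p - 1) + 1 := by
        field_simp
        ring
      rw [h8]
      exact this
    have h8 : 1 - (p : ℝ)⁻¹ = ((p : ℝ) / (p - 1))⁻¹ := by
      have : (p : ℝ) ≠ 0 := by linarith
      field_simp
    rw [h8]
    exact inv_anti₀ (by positivity) h7
  calc Real.exp (-(Pool.Agent.E456.S1 X + 1))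
      ≤ Real.exp (∑ p ∈ (Ioc 0 X).filter Nat.Prime, (-(1 / (p : ℝ) + 1 / (p * (p - 1))))) := by
        apply Real.exp_le_exp.mpr
        rw [Finset.sum_neg_distrib, Finset.sum_add_distrib]
        have := sum_tel X
        unfold Pool.Agent.E456.S1
        linarith
    _ = ∏ p ∈ (Ioc 0 X).filter Nat.Prime, Real.exp (-(1 / (p : ℝ) + 1 / (p * (p - 1)))) :=
        Real.exp_sum _ _
    _ ≤ _ := Finset.prod_le_prod (fun p _ => (Real.exp_pos _).le) h3

/-- Mertens: `φ(P)/P ≥ c / log X`. -/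
theorem mert : ∃ c : ℝ, 0 < c ∧ ∀ X M : ℕ, 2 ≤ X →
    c / Real.log X ≤ ((PP X M).totient : ℝ) / PP X M := by
  obtain ⟨C, hC, h⟩ := Pool.Agent.E456.mertens2
  refine ⟨Real.exp (-(C + 1)), Real.exp_pos _, fun X M hX => ?_⟩
  refine le_trans ?_ (totient_PP X M)
  have h1 := (abs_le.mp (h X hX)).2
  have hX' : (2 : ℝ) ≤ X := by exact_mod_cast hX
  have hlog : 0 < Real.log X := Real.log_pos (by linarith)
  have h2 : Pool.Agent.E456.S1 X + 1 ≤ Real.log (Real.log X) + (C + 1) := by linarith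
  calc Real.exp (-(C + 1)) / Real.log X
      = Real.exp (-(Real.log (Real.log X) + (C + 1))) := by
        rw [neg_add (Real.log (Real.log X)) (C + 1), Real.exp_add,
          Real.exp_neg (Real.log (Real.log X)), Real.exp_log hlog]
        ring
    _ ≤ _ := Real.exp_le_exp.mpr (by linarith)

/-- The number of `t` mod `P` with `1 + M t` coprime to `P`, when `M` and `P` are coprime. -/
lemma count_coprime {M P : ℕ} (hP : 0 < P) (h : Nat.Coprime M P) :
    #{t ∈ range P | IsCoprime (1 + (M : ℤ) * ((t : ℕ) : ℤ)) (P : ℤ)} = P.totient := by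
  have hz : NeZero P := ⟨hP.ne'⟩
  classical
  rw [← ZMod.card_units_eq_totient P, ← Finset.card_univ]
  have hM : IsUnit (M : ZMod P) := (ZMod.isUnit_iff_coprime M P).mpr h
  have hu : ∀ w : ℤ, IsUnit (w : ZMod P) ↔ IsCoprime w (P : ℤ) := fun w => by
    rw [ZMod.coe_int_isUnit_iff_isCoprime, isCoprime_comm]
  symm
  refine Finset.card_bij (fun (u : (ZMod P)ˣ) _ => ((hM.unit⁻¹ : (ZMod P)ˣ) * ((u : ZMod P) - 1) : ZMod P).val)
    ?_ ?_ ?_
  · intro u _
    rw [mem_filter, mem_range]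
    refine ⟨ZMod.val_lt _, ?_⟩
    rw [← hu]
    push_cast
    rw [ZMod.natCast_zmod_val]
    have h1 : (M : ZMod P) * ((hM.unit⁻¹ : (ZMod P)ˣ) * ((u : ZMod P) - 1)) = (u : ZMod P) - 1 := by
      rw [← mul_assoc]
      have : (M : ZMod P) * ((hM.unit⁻¹ : (ZMod P)ˣ) : ZMod P) = 1 := by
        simp
      rw [this, one_mul]
    rw [h1]
    simp
  · intro u _ u' _ h1
    have h2 := ZMod.val_injective P h1
    have h3 : ((u : ZMod P) - 1) = ((u' : ZMod P) - 1) :=
      (Units.mul_right_inj _).mp h2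
    exact Units.ext (by linear_combination h3)
  · intro t ht
    rw [mem_filter, mem_range] at ht
    have h1 := (hu _).mpr ht.2
    push_cast at h1
    refine ⟨h1.unit, mem_univ _, ?_⟩
    have h2 : ((hM.unit⁻¹ : (ZMod P)ˣ) * (((h1.unit : (ZMod P)ˣ) : ZMod P) - 1) : ZMod P) = (t : ZMod P) := by
      rw [IsUnit.unit_spec, add_sub_cancel_left, ← mul_assoc]
      have : ((hM.unit⁻¹ : (ZMod P)ˣ) : ZMod P) * (M : ZMod P) = 1 := by
        simp
      rw [this, one_mul]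
    rw [h2, ZMod.val_natCast, Nat.mod_eq_of_lt ht.1]

end Pool.Agent.E25C
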