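import Mathlib

/-!
# Decoupling for sets that are exclusive at every prime
-/

namespace Pool.Agent.E25C

open Finset

/-- The number of elements with the property `P`. -/
noncomputable def cn {α : Type*} [Fintype α] (P : α → Prop) : ℕ := by
  classical exact #{a | P a}

lemma cn_eq {α : Type*} [Fintype α] (P : α → Prop) [DecidablePred P] : cn P = #{a | P a} := by
  unfold cn
  congr

lemma cn_mono {α : Type*} [Fintype α] {P Q : α → Prop} (h : ∀ a, P a → Q a) : cn P ≤ cn Q := by
  classical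
  rw [cn_eq, cn_eq]
  exact card_le_card fun a ha => by
    simp only [mem_filter, mem_univ, true_and] at ha ⊢
    exact h a ha

lemma cn_prod {A B : Type*} [Fintype A] [Fintype B] (G : A → B → Prop) :
    cn (fun x : A × B => G x.1 x.2) = ∑ a, cn (G a) := by
  classical
  rw [cn_eq, Finset.card_filter, Fintype.sum_prod_type]
  refine Finset.sum_congr rfl fun a _ => ?_
  rw [cn_eq, Finset.card_filter]

/-- One step: the sets are decoupled in the fibres, and in the first coordinate they are either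
full or contained in disjoint sets. -/
lemma two_step {A B : Type*} [Fintype A] [Fintype B] (F F' : A → B → Prop)
    (hB : ∀ a, cn (fun b => F a b ∧ F' a b) * Fintype.card B ≤ cn (F a) * cn (F' a))
    (C C' : A → Prop) (hC : ∀ a, ¬ (C a ∧ C' a))
    (hF : ∀ a b, F a b → ¬ C a → ∀ a', F a' b)
    (hF' : ∀ a b, F' a b → ¬ C' a → ∀ a', F' a' b) :
    cn (fun x : A × B => F x.1 x.2 ∧ F' x.1 x.2) * (Fintype.card A * Fintype.card B)
      ≤ cn (fun x : A × B => F x.1 x.2) * cn (fun x : A × B => F' x.1 x.2) := by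
  classical
  rw [cn_prod (fun a b => F a b ∧ F' a b), cn_prod F, cn_prod F']
  set f : A → ℕ := fun a => cn (F a) with hf
  set f' : A → ℕ := fun a => cn (F' a) with hf'
  set f0 : ℕ := cn (fun b => ∀ a, F a b) with hf0
  set f0' : ℕ := cn (fun b => ∀ a, F' a b) with hf0'
  have h1 : ∀ a, f0 ≤ f a := fun a => cn_mono fun b hb => hb a
  have h1' : ∀ a, f0' ≤ f' a := fun a => cn_mono fun b hb => hb a
  have h2 : ∀ a, ¬ C a → f a = f0 := fun a ha => le_antisymm
    (cn_mono fun b hb => hF a b hb ha) (h1 a)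
  have h2' : ∀ a, ¬ C' a → f' a = f0' := fun a ha => le_antisymm
    (cn_mono fun b hb => hF' a b hb ha) (h1' a)
  set g : A → ℕ := fun a => f a - f0 with hg
  set g' : A → ℕ := fun a => f' a - f0' with hg'
  have h3 : ∀ a, f a = f0 + g a := fun a => by have := h1 a; simp only [hg]; omega
  have h3' : ∀ a, f' a = f0' + g' a := fun a => by have := h1' a; simp only [hg']; omega
  have h4 : ∀ a, g a * g' a = 0 := by
    intro a
    by_cases hc : C a
    · have hc' : ¬ C' a := fun h => hC a ⟨hc, h⟩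
      have : g' a = 0 := by simp only [hg', h2' a hc', Nat.sub_self]
      rw [this, mul_zero]
    · have : g a = 0 := by simp only [hg, h2 a hc, Nat.sub_self]
      rw [this, zero_mul]
  have h5 : ∀ a, f a * f' a = f0 * f0' + f0 * g' a + f0' * g a := by
    intro a
    rw [h3, h3']
    have := h4 a
    calc (f0 + g a) * (f0' + g' a) = f0 * f0' + f0 * g' a + f0' * g a + g a * g' a := by ring
      _ = _ := by rw [this, add_zero]
  have h6 : (∑ a, cn (fun b => F a b ∧ F' a b)) * Fintype.card B ≤ ∑ a, f a * f' a := by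
    rw [Finset.sum_mul]
    exact Finset.sum_le_sum fun a _ => hB a
  have h7 : (∑ a, f a * f' a) * Fintype.card A ≤ (∑ a, f a) * ∑ a, f' a := by
    have e1 : ∑ a, f a * f' a = Fintype.card A * (f0 * f0') + f0 * ∑ a, g' a + f0' * ∑ a, g a := by
      rw [Finset.sum_congr rfl fun a _ => h5 a, Finset.sum_add_distrib, Finset.sum_add_distrib,
        Finset.mul_sum, Finset.mul_sum, Finset.sum_const, Finset.card_univ, smul_eq_mul]
    have e2 : ∑ a, f a = Fintype.card A * f0 + ∑ a, g a := by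
      rw [Finset.sum_congr rfl fun a _ => h3 a, Finset.sum_add_distrib, Finset.sum_const,
        Finset.card_univ, smul_eq_mul]
    have e3 : ∑ a, f' a = Fintype.card A * f0' + ∑ a, g' a := by
      rw [Finset.sum_congr rfl fun a _ => h3' a, Finset.sum_add_distrib, Finset.sum_const,
        Finset.card_univ, smul_eq_mul]
    rw [e1, e2, e3]
    nlinarith [Nat.zero_le ((∑ a, g a) * ∑ a, g' a)]
  calc (∑ a, cn (fun b => F a b ∧ F' a b)) * (Fintype.card A * Fintype.card B)
      = (∑ a, cn (fun b => F a b ∧ F' a b)) * Fintype.card B * Fintype.card A := by ring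
    _ ≤ (∑ a, f a * f' a) * Fintype.card A := Nat.mul_le_mul_right _ h6
    _ ≤ _ := h7

/-- `F` may be changed at the prime `p` off `C`. -/
def Free (L : ℕ) (p : ℕ) (F C : ℤ → Prop) : Prop :=
  ∀ y y', F y → ¬ C y → y' ≡ y [ZMOD ((L / p ^ L.factorization p : ℕ) : ℤ)] → F y'

/-- Hypothesis of the decoupling lemma at the prime `p`. -/
def Excl (L : ℕ) (p : ℕ) (F F' : ℤ → Prop) : Prop :=
  ∃ C C' : ℤ → Prop, (∀ y, ¬ (C y ∧ C' y)) ∧
    (∀ y y', y' ≡ y [ZMOD ((p ^ L.factorization p : ℕ) : ℤ)] → C y → C y') ∧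
    (∀ y y', y' ≡ y [ZMOD ((p ^ L.factorization p : ℕ) : ℤ)] → C' y → C' y') ∧
    Free L p F C ∧ Free L p F' C'

/-- Counting in `ZMod L`. -/
noncomputable def cnt (L : ℕ) (F : ℤ → Prop) : ℕ := by
  classical exact #{y ∈ range L | F ((y : ℕ) : ℤ)}

lemma cnt_eq (L : ℕ) (F : ℤ → Prop) [DecidablePred F] :
    cnt L F = #{y ∈ range L | F ((y : ℕ) : ℤ)} := by
  unfold cnt
  congr

lemma cnt_zmod (L : ℕ) [NeZero L] (F : ℤ → Prop) :
    cnt L F = cn (fun z : ZMod L => F (z.val : ℤ)) := by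
  classical
  rw [cnt_eq, cn_eq]
  refine Finset.card_bij' (fun (y : ℕ) _ => (y : ZMod L)) (fun z _ => z.val) ?_ ?_ ?_ ?_
  · intro y hy
    have hy' := Finset.mem_filter.mp hy
    have hy1 := Finset.mem_range.mp hy'.1
    simp only [mem_filter, mem_univ, true_and]
    rw [ZMod.val_natCast, Nat.mod_eq_of_lt hy1]
    exact hy'.2
  · intro z hz
    simp only [mem_filter, mem_univ, true_and] at hz
    exact mem_filter.mpr ⟨mem_range.mpr (ZMod.val_lt z), hz⟩
  · intro y hy
    have hy' := Finset.mem_filter.mp hy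
    have hy1 := Finset.mem_range.mp hy'.1
    change ((y : ZMod L)).val = y
    rw [ZMod.val_natCast, Nat.mod_eq_of_lt hy1]
  · intro z _
    exact ZMod.natCast_zmod_val z

lemma cn_congr_equiv {α β : Type*} [Fintype α] [Fintype β] (e : α ≃ β) {P : α → Prop} {Q : β → Prop}
    (h : ∀ a, P a ↔ Q (e a)) : cn P = cn Q := by
  classical
  rw [cn_eq, cn_eq]
  refine Finset.card_bij' (fun a _ => e a) (fun b _ => e.symm b) ?_ ?_ ?_ ?_
  · intro a ha
    simp only [mem_filter, mem_univ, true_and] at ha ⊢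
    exact (h a).mp ha
  · intro b hb
    simp only [mem_filter, mem_univ, true_and] at hb ⊢
    rw [h, Equiv.apply_symm_apply]
    exact hb
  · intro a _; simp
  · intro b _; simp

lemma exists_crt {a b : ℕ} (hab : Nat.Coprime a b) (x y : ℤ) :
    ∃ w : ℤ, w ≡ x [ZMOD (a : ℤ)] ∧ w ≡ y [ZMOD (b : ℤ)] := by
  obtain ⟨u, v, h⟩ := Nat.isCoprime_iff_coprime.mpr hab
  refine ⟨y * (u * a) + x * (v * b), ?_, ?_⟩
  · refine (Int.modEq_iff_dvd.mpr ⟨(x - y) * u, ?_⟩)
    have h2 : v * (b : ℤ) = 1 - u * a := by linarith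
    rw [h2]; ring
  · refine (Int.modEq_iff_dvd.mpr ⟨(y - x) * v, ?_⟩)
    have h2 : u * (a : ℤ) = 1 - v * b := by linarith
    rw [h2]; ring

lemma modEq_mul {a b : ℕ} (hab : Nat.Coprime a b) {x y : ℤ} (h1 : x ≡ y [ZMOD (a : ℤ)])
    (h2 : x ≡ y [ZMOD (b : ℤ)]) : x ≡ y [ZMOD ((a * b : ℕ) : ℤ)] := by
  push_cast
  exact (Int.modEq_and_modEq_iff_modEq_mul (by simpa using hab)).mp ⟨h1, h2⟩

/-- Section of a periodic predicate. -/
def Sec (a b : ℕ) (F : ℤ → Prop) (x : ℤ) (y : ℤ) : Prop :=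
  ∀ w : ℤ, w ≡ x [ZMOD (a : ℤ)] → w ≡ y [ZMOD (b : ℤ)] → F w

lemma sec_iff {a b : ℕ} (hab : Nat.Coprime a b) {F : ℤ → Prop}
    (hper : ∀ y y', y' ≡ y [ZMOD ((a * b : ℕ) : ℤ)] → F y → F y') {x y w : ℤ}
    (h1 : w ≡ x [ZMOD (a : ℤ)]) (h2 : w ≡ y [ZMOD (b : ℤ)]) : Sec a b F x y ↔ F w := by
  constructor
  · intro h
    exact h w h1 h2
  · intro h w' h1' h2'
    exact hper w w' (modEq_mul hab (h1'.trans h1.symm) (h2'.trans h2.symm)) h

theorem decouple (L : ℕ) (hL : 0 < L) : ∀ (F F' : ℤ → Prop)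
    (_ : ∀ y y', y' ≡ y [ZMOD (L : ℤ)] → F y → F y')
    (_ : ∀ y y', y' ≡ y [ZMOD (L : ℤ)] → F' y → F' y')
    (_ : ∀ p, p.Prime → p ∣ L → Excl L p F F'),
    cnt L (fun y => F y ∧ F' y) * L ≤ cnt L F * cnt L F' := by
  induction L using Nat.strong_induction_on with
  | _ L ih =>
  intro F F' hper hper' h
  rcases Nat.lt_or_ge 1 L with h1 | h1
  swap
  · have hL1 : L = 1 := by omega
    subst hL1
    classical
    rw [cnt_eq, cnt_eq, cnt_eq]
    simp only [Finset.range_one, Finset.filter_singleton, Nat.cast_zero]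
    by_cases h2 : F 0 <;> by_cases h3 : F' 0 <;> simp [h2, h3]
  -- split off a prime power
  obtain ⟨p, hp, hpL⟩ := Nat.exists_prime_and_dvd (show L ≠ 1 by omega)
  obtain ⟨C, C', hC0, hC1, hC1', hC2, hC2'⟩ := h p hp hpL
  set a : ℕ := p ^ L.factorization p with ha
  set b : ℕ := L / a with hb
  have hLab : a * b = L := Nat.ordProj_mul_ordCompl_eq_self L p
  have hab : Nat.Coprime a b := by
    have := Nat.coprime_ordCompl hp hL.ne'
    exact Nat.Coprime.pow_left _ this
  have hk : 0 < L.factorization p := hp.factorization_pos_of_dvd hL.ne' hpL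
  have ha1 : 1 < a := Nat.one_lt_pow hk.ne' hp.one_lt
  have hb0 : 0 < b := by
    rcases Nat.eq_zero_or_pos b with h0 | h0
    · rw [h0, mul_zero] at hLab; omega
    · exact h0
  have hbL : b < L := by
    rw [← hLab]
    nlinarith
  haveI : NeZero a := ⟨by omega⟩
  haveI : NeZero b := ⟨by omega⟩
  haveI : NeZero L := ⟨by omega⟩
  haveI : NeZero (a * b) := ⟨by rw [hLab]; omega⟩
  have hperab : ∀ y y', y' ≡ y [ZMOD ((a * b : ℕ) : ℤ)] → F y → F y' := by rw [hLab]; exact hper
  have hperab' : ∀ y y', y' ≡ y [ZMOD ((a * b : ℕ) : ℤ)] → F' y → F' y' := by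
    rw [hLab]; exact hper'
  -- counting through the Chinese remainder theorem
  have key : ∀ G : ℤ → Prop, (∀ y y', y' ≡ y [ZMOD ((a * b : ℕ) : ℤ)] → G y → G y') →
      cnt L G = cn (fun x : ZMod a × ZMod b => Sec a b G (x.1.val : ℤ) (x.2.val : ℤ)) := by
    intro G hG
    have h2 : cnt L G = cnt (a * b) G := by rw [hLab]
    rw [h2, cnt_zmod (a * b)]
    refine cn_congr_equiv (ZMod.chineseRemainder hab).toEquiv fun z => ?_
    rw [sec_iff hab hG (w := (z.val : ℤ))]
    · have e1 : ((ZMod.chineseRemainder hab) z).1 = ((z.val : ℕ) : ZMod a) := by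
        conv_lhs => rw [← ZMod.natCast_zmod_val z]
        rw [map_natCast, Prod.fst_natCast]
      have e2 : ((ZMod.chineseRemainder hab).toEquiv z).1 = ((z.val : ℕ) : ZMod a) := e1
      rw [e2, ZMod.val_natCast]
      push_cast
      exact (Int.mod_modEq _ _).symm
    · have e1 : ((ZMod.chineseRemainder hab) z).2 = ((z.val : ℕ) : ZMod b) := by
        conv_lhs => rw [← ZMod.natCast_zmod_val z]
        rw [map_natCast, Prod.snd_natCast]
      have e2 : ((ZMod.chineseRemainder hab).toEquiv z).2 = ((z.val : ℕ) : ZMod b) := e1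
      rw [e2, ZMod.val_natCast]
      push_cast
      exact (Int.mod_modEq _ _).symm
  have hand : ∀ x y : ℤ, Sec a b (fun y => F y ∧ F' y) x y ↔ (Sec a b F x y ∧ Sec a b F' x y) := by
    intro x y
    constructor
    · intro h2
      exact ⟨fun w h3 h4 => (h2 w h3 h4).1, fun w h3 h4 => (h2 w h3 h4).2⟩
    · rintro ⟨h2, h3⟩ w h4 h5
      exact ⟨h2 w h4 h5, h3 w h4 h5⟩
  rw [key F hperab, key F' hperab', key (fun y => F y ∧ F' y)
    (fun y y' h2 h3 => ⟨hperab y y' h2 h3.1, hperab' y y' h2 h3.2⟩)]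
  have h2 := two_step (A := ZMod a) (B := ZMod b) (fun x y => Sec a b F (x.val : ℤ) (y.val : ℤ))
    (fun x y => Sec a b F' (x.val : ℤ) (y.val : ℤ)) ?_ (fun x => C (x.val : ℤ))
    (fun x => C' (x.val : ℤ)) (fun x => hC0 _) ?_ ?_
  · rw [ZMod.card, ZMod.card, hLab] at h2
    refine le_trans (le_of_eq ?_) h2
    congr 1
    refine congrArg cn (funext fun x => propext ?_)
    exact hand _ _
  · -- fibres: induction hypothesis
    intro x
    have h3 := ih b hbL hb0 (Sec a b F (x.val : ℤ)) (Sec a b F' (x.val : ℤ)) ?_ ?_ ?_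
    · rw [cnt_zmod b, cnt_zmod b, cnt_zmod b] at h3
      rw [ZMod.card]
      exact h3
    · intro y y' h4 h5 w h6 h7
      exact h5 w h6 (h7.trans h4)
    · intro y y' h4 h5 w h6 h7
      exact h5 w h6 (h7.trans h4)
    · intro q hq hqb
      have hqL : q ∣ L := by rw [← hLab]; exact Dvd.dvd.mul_left hqb a
      have hqp : q ≠ p := by
        rintro rfl
        have := Nat.coprime_ordCompl hq hL.ne'
        rw [Nat.Prime.coprime_iff_not_dvd hq] at this
        exact this hqb
      have hfac : b.factorization q = L.factorization q := by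
        rw [← hLab, Nat.factorization_mul (by omega) (by omega)]
        simp only [Finsupp.coe_add, Pi.add_apply]
        have : a.factorization q = 0 := by
          rw [ha, hp.factorization_pow, Finsupp.single_apply, if_neg (Ne.symm hqp)]
        omega
      obtain ⟨E, E', hE0, hE1, hE1', hE2, hE2'⟩ := h q hq hqL
      rw [← hfac] at hE1 hE1'
      -- the modulus away from q
      have hdiv : L / q ^ L.factorization q = a * (b / q ^ b.factorization q) := by
        rw [← hfac]
        have h5 : q ^ b.factorization q ∣ b := Nat.ordProj_dvd b q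
        conv_lhs => rw [← hLab]
        exact Nat.mul_div_assoc a h5
      have hco2 : Nat.Coprime a (b / q ^ b.factorization q) :=
        Nat.Coprime.coprime_dvd_right (Nat.ordCompl_dvd b q) hab
      have hqdvd : ((q ^ b.factorization q : ℕ) : ℤ) ∣ ((b : ℕ) : ℤ) := by
        exact_mod_cast Nat.ordProj_dvd b q
      refine ⟨Sec a b E (x.val : ℤ), Sec a b E' (x.val : ℤ), ?_, ?_, ?_, ?_, ?_⟩
      · rintro y ⟨h5, h6⟩
        obtain ⟨w, h7, h8⟩ := exists_crt hab (x.val : ℤ) y
        exact hE0 w ⟨h5 w h7 h8, h6 w h7 h8⟩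
      · intro y y' h4 h5 w h6 h7
        obtain ⟨w0, h8, h9⟩ := exists_crt hab (x.val : ℤ) y
        refine hE1 w0 w ?_ (h5 w0 h8 h9)
        exact ((h7.of_dvd hqdvd).trans h4).trans (h9.of_dvd hqdvd).symm
      · intro y y' h4 h5 w h6 h7
        obtain ⟨w0, h8, h9⟩ := exists_crt hab (x.val : ℤ) y
        refine hE1' w0 w ?_ (h5 w0 h8 h9)
        exact ((h7.of_dvd hqdvd).trans h4).trans (h9.of_dvd hqdvd).symm
      · intro y y' h4 h5 h6 w h7 h8
        unfold Sec at h5
        push Not at h5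
        obtain ⟨w0, h9, h10, h11⟩ := h5
        refine hE2 w0 w (h4 w0 h9 h10) h11 ?_
        rw [hdiv]
        have hd2 : ((b / q ^ b.factorization q : ℕ) : ℤ) ∣ ((b : ℕ) : ℤ) := by
          exact_mod_cast Nat.ordCompl_dvd b q
        exact modEq_mul hco2 (h7.trans h9.symm)
          (((h8.of_dvd hd2).trans h6).trans (h10.of_dvd hd2).symm)
      · intro y y' h4 h5 h6 w h7 h8
        unfold Sec at h5
        push Not at h5
        obtain ⟨w0, h9, h10, h11⟩ := h5
        refine hE2' w0 w (h4 w0 h9 h10) h11 ?_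
        rw [hdiv]
        have hd2 : ((b / q ^ b.factorization q : ℕ) : ℤ) ∣ ((b : ℕ) : ℤ) := by
          exact_mod_cast Nat.ordCompl_dvd b q
        exact modEq_mul hco2 (h7.trans h9.symm)
          (((h8.of_dvd hd2).trans h6).trans (h10.of_dvd hd2).symm)
  · intro x y h3 h4 x' w h5 h6
    obtain ⟨w0, h7, h8⟩ := exists_crt hab (x.val : ℤ) (y.val : ℤ)
    refine hC2 w0 w (h3 w0 h7 h8) (fun hcon => h4 (hC1 _ _ h7.symm hcon)) ?_
    exact h6.trans h8.symm
  · intro x y h3 h4 x' w h5 h6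
    obtain ⟨w0, h7, h8⟩ := exists_crt hab (x.val : ℤ) (y.val : ℤ)
    refine hC2' w0 w (h3 w0 h7 h8) (fun hcon => h4 (hC1' _ _ h7.symm hcon)) ?_
    exact h6.trans h8.symm

end Pool.Agent.E25C
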