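import Mathlib
import Pool.Agent.E25C.Decouple

/-!
# Densities of periodic predicates on the integers
-/

namespace Pool.Agent.E25C

open Finset

/-- `F` has period `L`. -/
def Per (L : ℕ) (F : ℤ → Prop) : Prop := ∀ y y', y' ≡ y [ZMOD (L : ℤ)] → F y → F y'

lemma Per.iff {L : ℕ} {F : ℤ → Prop} (h : Per L F) {y y' : ℤ} (hy : y' ≡ y [ZMOD (L : ℤ)]) :
    F y ↔ F y' := ⟨h y y' hy, h y' y hy.symm⟩

lemma Per.of_dvd {L L' : ℕ} {F : ℤ → Prop} (h : Per L F) (hd : L ∣ L') : Per L' F :=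
  fun y y' hy => h y y' (hy.of_dvd (by exact_mod_cast hd))

lemma Per.and {L : ℕ} {F G : ℤ → Prop} (h : Per L F) (h' : Per L G) :
    Per L (fun y => F y ∧ G y) := fun y y' hy hF => ⟨h y y' hy hF.1, h' y y' hy hF.2⟩

lemma Per.not {L : ℕ} {F : ℤ → Prop} (h : Per L F) : Per L (fun y => ¬ F y) :=
  fun y y' hy hF hF' => hF (h y' y hy.symm hF')

lemma Per.exists {ι : Type*} {L : ℕ} {F : ι → ℤ → Prop} {S : Finset ι} (h : ∀ i ∈ S, Per L (F i)) :
    Per L (fun y => ∃ i ∈ S, F i y) := by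
  rintro y y' hy ⟨i, hi, hF⟩
  exact ⟨i, hi, h i hi y y' hy hF⟩

lemma cnt_le (L : ℕ) {F G : ℤ → Prop} (h : ∀ y, F y → G y) : cnt L F ≤ cnt L G := by
  classical
  rw [cnt_eq, cnt_eq]
  refine card_le_card fun y hy => ?_
  simp only [mem_filter] at hy ⊢
  exact ⟨hy.1, h _ hy.2⟩

lemma cnt_le_self (L : ℕ) (F : ℤ → Prop) : cnt L F ≤ L := by
  classical
  rw [cnt_eq]
  simpa using card_filter_le (range L) (fun y : ℕ => F (y : ℤ))

/-- Counting over a multiple of a period. -/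
lemma cnt_mul {F : ℤ → Prop} {L : ℕ} (hp : Per L F) (k : ℕ) :
    cnt (L * k) F = k * cnt L F := by
  classical
  rw [cnt_eq, cnt_eq]
  have hper : Function.Periodic (fun y : ℕ => F (y : ℤ)) L := by
    intro y
    simp only [eq_iff_iff]
    refine hp.iff ?_
    push_cast
    simp [Int.ModEq]
  induction k with
  | zero => simp
  | succ k ih =>
    have h1 : range (L * (k + 1)) = range (L * k) ∪ Ico (L * k) (L * k + L) := by
      ext y; simp only [mem_range, mem_union, mem_Ico]; rw [mul_add, mul_one]; omega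
    have h2 : Disjoint (range (L * k)) (Ico (L * k) (L * k + L)) := by
      rw [Finset.disjoint_left]; intro y hy hy'; simp only [mem_range, mem_Ico] at hy hy'; omega
    rw [h1, filter_union, card_union_of_disjoint (disjoint_filter_filter h2), ih,
      Nat.filter_Ico_card_eq_of_periodic _ _ _ hper, Nat.count_eq_card_filter_range]
    ring

open scoped Classical in
/-- The density of a periodic predicate. -/
noncomputable def dn (F : ℤ → Prop) : ℝ :=
  if h : ∃ L : ℕ, 0 < L ∧ Per L F then (cnt h.choose F : ℝ) / h.choose else 0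

lemma dn_eq {F : ℤ → Prop} {L : ℕ} (hL : 0 < L) (hp : Per L F) : dn F = (cnt L F : ℝ) / L := by
  have h : ∃ L : ℕ, 0 < L ∧ Per L F := ⟨L, hL, hp⟩
  unfold dn
  rw [dif_pos h]
  set K := h.choose with hK
  obtain ⟨hK0, hKp⟩ : 0 < K ∧ Per K F := h.choose_spec
  have h1 := cnt_mul hp K
  have h2 := cnt_mul hKp L
  rw [mul_comm L K, h2] at h1
  have h3 : (L : ℝ) * cnt K F = K * cnt L F := by exact_mod_cast h1
  have hL' : (0 : ℝ) < L := by exact_mod_cast hL
  have hK' : (0 : ℝ) < K := by exact_mod_cast hK0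
  rw [div_eq_div_iff hK'.ne' hL'.ne']
  linarith

lemma cnt_eq_dn {F : ℤ → Prop} {L : ℕ} (hL : 0 < L) (hp : Per L F) : (cnt L F : ℝ) = L * dn F := by
  rw [dn_eq hL hp]
  have hL' : (0 : ℝ) < L := by exact_mod_cast hL
  field_simp

lemma dn_nonneg (F : ℤ → Prop) : 0 ≤ dn F := by
  unfold dn
  split_ifs
  · positivity
  · exact le_rfl

lemma dn_mono {F G : ℤ → Prop} {L : ℕ} (hL : 0 < L) (hF : Per L F) (hG : Per L G)
    (h : ∀ y, F y → G y) : dn F ≤ dn G := by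
  rw [dn_eq hL hF, dn_eq hL hG]
  have := cnt_le L h
  gcongr

lemma dn_le_one (F : ℤ → Prop) : dn F ≤ 1 := by
  unfold dn
  split_ifs with h
  · have h0 : 0 < h.choose := h.choose_spec.1
    have h1 : (0 : ℝ) < h.choose := by exact_mod_cast h0
    rw [div_le_one h1]
    exact_mod_cast cnt_le_self _ _
  · exact zero_le_one

lemma dn_false : dn (fun _ => False) = 0 := by
  rw [dn_eq (L := 1) one_pos (fun _ _ _ h => h), cnt_eq]
  simp

/-- Disjoint periodic sets inside `F` and outside `F₀ ⊆ F`. -/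
lemma dn_packing {ι : Type*} {J : Finset ι} {T : ι → ℤ → Prop} {F F0 : ℤ → Prop} {L : ℕ}
    (hL : 0 < L) (hT : ∀ j ∈ J, Per L (T j)) (hF : Per L F) (hF0 : Per L F0)
    (h0 : ∀ y, F0 y → F y) (h1 : ∀ j ∈ J, ∀ y, T j y → F y ∧ ¬ F0 y)
    (h2 : ∀ j ∈ J, ∀ j' ∈ J, ∀ y, T j y → T j' y → j = j') :
    ∑ j ∈ J, dn (T j) ≤ dn F - dn F0 := by
  classical
  rw [dn_eq hL hF, dn_eq hL hF0, Finset.sum_congr rfl fun j hj => dn_eq hL (hT j hj)]
  rw [← Finset.sum_div, ← sub_div]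
  have hL' : (0 : ℝ) < L := by exact_mod_cast hL
  refine div_le_div_of_nonneg_right ?_ hL'.le
  rw [le_sub_iff_add_le]
  have h3 : ∑ j ∈ J, cnt L (T j) + cnt L F0 ≤ cnt L F := by
    rw [cnt_eq L F, cnt_eq L F0, Finset.sum_congr rfl fun j _ => cnt_eq L (T j),
      ← Finset.card_biUnion, ← Finset.card_union_of_disjoint]
    · refine card_le_card fun y hy => ?_
      rw [mem_union, mem_biUnion] at hy
      rcases hy with ⟨j, hj, hy⟩ | hy
      · rw [mem_filter] at hy ⊢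
        exact ⟨hy.1, (h1 j hj _ hy.2).1⟩
      · rw [mem_filter] at hy ⊢
        exact ⟨hy.1, h0 _ hy.2⟩
    · rw [Finset.disjoint_left]
      intro y hy hy'
      rw [mem_biUnion] at hy
      obtain ⟨j, hj, hy⟩ := hy
      rw [mem_filter] at hy hy'
      exact (h1 j hj _ hy.2).2 hy'.2
    · intro j hj j' hj' hne
      rw [Function.onFun, Finset.disjoint_left]
      intro y hy hy'
      rw [mem_filter] at hy hy'
      exact hne (h2 j hj j' hj' _ hy.2 hy'.2)
  exact_mod_cast h3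

/-- Linear substitution. -/
lemma per_lin {G : ℤ → Prop} {M : ℕ} (hG : Per M G) {N : ℕ} (c : ℤ) :
    Per (N * M) (fun z => ∃ t : ℤ, z = c + N * t ∧ G t) := by
  rintro y y' hy ⟨t, rfl, ht⟩
  obtain ⟨k, hk⟩ := hy.symm.dvd
  refine ⟨t + M * k, ?_, ?_⟩
  · push_cast at hk
    linear_combination hk
  · refine hG t _ ?_ ht
    simp [Int.ModEq]

lemma cnt_lin {G : ℤ → Prop} {M : ℕ} (hM : 0 < M) (hG : Per M G) {N : ℕ} (hN : 0 < N) (c : ℤ) :
    cnt (N * M) (fun z => ∃ t : ℤ, z = c + N * t ∧ G t) = cnt M G := by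
  classical
  rw [cnt_eq, cnt_eq]
  symm
  have hNM : (0 : ℤ) < ((N * M : ℕ) : ℤ) := by exact_mod_cast Nat.mul_pos hN hM
  have hN' : (0 : ℤ) < N := by exact_mod_cast hN
  have hM' : (0 : ℤ) < M := by exact_mod_cast hM
  refine Finset.card_bij (fun (t : ℕ) _ => ((c + N * (t : ℤ)) % ((N * M : ℕ) : ℤ)).toNat) ?_ ?_ ?_
  · intro t ht
    rw [mem_filter, mem_range] at ht ⊢
    have h1 : 0 ≤ (c + N * (t : ℤ)) % ((N * M : ℕ) : ℤ) := Int.emod_nonneg _ hNM.ne'
    have h2 : (c + N * (t : ℤ)) % ((N * M : ℕ) : ℤ) < ((N * M : ℕ) : ℤ) := Int.emod_lt_of_pos _ hNM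
    refine ⟨by omega, ?_⟩
    rw [Int.toNat_of_nonneg h1]
    refine ⟨t - M * ((c + N * (t : ℤ)) / ((N * M : ℕ) : ℤ)), ?_, ?_⟩
    · have h3 := Int.emod_add_mul_ediv (c + N * (t : ℤ)) ((N * M : ℕ) : ℤ)
      push_cast at h3 ⊢
      linear_combination h3
    · refine hG (t : ℤ) _ ?_ ht.2
      simp [Int.ModEq]
  · intro t ht t' ht' h
    rw [mem_filter, mem_range] at ht ht'
    have h1 : 0 ≤ (c + N * (t : ℤ)) % ((N * M : ℕ) : ℤ) := Int.emod_nonneg _ hNM.ne'
    have h2 : 0 ≤ (c + N * (t' : ℤ)) % ((N * M : ℕ) : ℤ) := Int.emod_nonneg _ hNM.ne'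
    have h3 : (c + N * (t : ℤ)) % ((N * M : ℕ) : ℤ) = (c + N * (t' : ℤ)) % ((N * M : ℕ) : ℤ) := by
      rw [← Int.toNat_of_nonneg h1, ← Int.toNat_of_nonneg h2]
      exact_mod_cast h
    obtain ⟨k, hk⟩ := Int.ModEq.dvd h3
    push_cast at hk
    have h4 : (t' : ℤ) - t = M * k := by
      have : (N : ℤ) * (t' - t) = N * (M * k) := by linear_combination hk
      exact mul_left_cancel₀ hN'.ne' this
    have h5 : (t : ℤ) ≡ t' [ZMOD (M : ℤ)] := Int.modEq_iff_dvd.mpr ⟨k, h4⟩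
    have h6 : t ≡ t' [MOD M] := Int.natCast_modEq_iff.mp h5
    have h7 : t % M = t' % M := h6
    rwa [Nat.mod_eq_of_lt ht.1, Nat.mod_eq_of_lt ht'.1] at h7
  · intro z hz
    rw [mem_filter, mem_range] at hz
    obtain ⟨hz1, t, hz2, hz3⟩ := hz
    have h1 : 0 ≤ t % (M : ℤ) := Int.emod_nonneg _ hM'.ne'
    have h2 : t % (M : ℤ) < M := Int.emod_lt_of_pos _ hM'
    refine ⟨(t % (M : ℤ)).toNat, ?_, ?_⟩
    · rw [mem_filter, mem_range]
      refine ⟨by omega, ?_⟩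
      rw [Int.toNat_of_nonneg h1]
      exact hG t _ (Int.mod_modEq _ _) hz3
    · have h3 : c + N * (((t % (M : ℤ)).toNat : ℕ) : ℤ) = z - ((N * M : ℕ) : ℤ) * (t / M) := by
        rw [Int.toNat_of_nonneg h1, hz2]
        have h4 := Int.emod_add_mul_ediv t (M : ℤ)
        push_cast
        linear_combination (N : ℤ) * h4
      have h5 : (c + N * (((t % (M : ℤ)).toNat : ℕ) : ℤ)) % ((N * M : ℕ) : ℤ) = z := by
        rw [h3, Int.sub_mul_emod_self_left]
        exact Int.emod_eq_of_lt (by positivity) (by exact_mod_cast hz1)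
      rw [h5]
      simp

lemma dn_lin {G : ℤ → Prop} {M : ℕ} (hM : 0 < M) (hG : Per M G) {N : ℕ} (hN : 0 < N) (c : ℤ) :
    dn (fun z => ∃ t : ℤ, z = c + N * t ∧ G t) = dn G / N := by
  rw [dn_eq (Nat.mul_pos hN hM) (per_lin hG c), cnt_lin hM hG hN c, dn_eq hM hG]
  have hM' : (0 : ℝ) < M := by exact_mod_cast hM
  have hN' : (0 : ℝ) < N := by exact_mod_cast hN
  push_cast
  field_simp

/-- Decoupling in terms of densities. -/
lemma dn_decouple {L : ℕ} (hL : 0 < L) {F F' : ℤ → Prop} (hF : Per L F) (hF' : Per L F')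
    (h : ∀ p, p.Prime → p ∣ L → Excl L p F F') :
    dn (fun y => F y ∧ F' y) ≤ dn F * dn F' := by
  have h1 := decouple L hL F F' hF hF' h
  rw [dn_eq hL (hF.and hF'), dn_eq hL hF, dn_eq hL hF']
  have hL' : (0 : ℝ) < L := by exact_mod_cast hL
  rw [div_mul_div_comm, div_le_div_iff₀ hL' (by positivity)]
  have h2 : (cnt L (fun y => F y ∧ F' y) : ℝ) * L ≤ cnt L F * cnt L F' := by exact_mod_cast h1
  nlinarith

/-- Second moment. -/
lemma dn_none {ι : Type*} {R : Finset ι} {F : ι → ℤ → Prop} {L : ℕ} (hL : 0 < L)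
    (hF : ∀ r ∈ R, Per L (F r))
    (h : ∀ r ∈ R, ∀ r' ∈ R, r ≠ r' → dn (fun y => F r y ∧ F r' y) ≤ dn (F r) * dn (F r')) :
    dn (fun y => ¬ ∃ r ∈ R, F r y) * ∑ r ∈ R, dn (F r) ≤ 1 := by
  classical
  set σ : ℝ := ∑ r ∈ R, dn (F r) with hσ
  have hσ0 : 0 ≤ σ := Finset.sum_nonneg fun r _ => dn_nonneg _
  rcases hσ0.eq_or_lt with h0 | h0
  · rw [← h0, mul_zero]; exact zero_le_one
  have hL' : (0 : ℝ) < L := by exact_mod_cast hL
  set f : ℕ → ℝ := fun y => ∑ r ∈ R, if F r (y : ℤ) then (1 : ℝ) else 0 with hf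
  have hcnt : ∀ G : ℤ → Prop, (cnt L G : ℝ) = ∑ y ∈ range L, if G (y : ℤ) then (1 : ℝ) else 0 := by
    intro G
    rw [cnt_eq, Finset.sum_boole]
  have e1 : ∑ y ∈ range L, f y = L * σ := by
    simp only [hf]
    rw [Finset.sum_comm, hσ, Finset.mul_sum]
    refine Finset.sum_congr rfl fun r hr => ?_
    rw [← hcnt, cnt_eq_dn hL (hF r hr)]
  have e2 : ∑ y ∈ range L, f y ^ 2 ≤ L * (σ + σ ^ 2) := by
    have e3 : ∀ y ∈ range L, f y ^ 2
        = ∑ r ∈ R, ∑ r' ∈ R, if (F r (y : ℤ) ∧ F r' (y : ℤ)) then (1 : ℝ) else 0 := by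
      intro y _
      simp only [hf]
      rw [sq, Finset.sum_mul_sum]
      refine Finset.sum_congr rfl fun r _ => Finset.sum_congr rfl fun r' _ => ?_
      by_cases h2 : F r (y : ℤ) <;> by_cases h3 : F r' (y : ℤ) <;> simp [h2, h3]
    rw [Finset.sum_congr rfl e3, Finset.sum_comm]
    have e4 : ∀ r ∈ R, ∑ y ∈ range L, ∑ r' ∈ R, (if (F r (y : ℤ) ∧ F r' (y : ℤ)) then (1 : ℝ) else 0)
        ≤ L * (dn (F r) + dn (F r) * σ) := by
      intro r hr
      rw [Finset.sum_comm]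
      have e5 : ∀ r' ∈ R, ∑ y ∈ range L, (if (F r (y : ℤ) ∧ F r' (y : ℤ)) then (1 : ℝ) else 0)
          ≤ L * ((if r' = r then dn (F r) else 0) + dn (F r) * dn (F r')) := by
        intro r' hr'
        have hc : ∑ y ∈ range L, (if (F r (y : ℤ) ∧ F r' (y : ℤ)) then (1 : ℝ) else 0)
            = (cnt L (fun y => F r y ∧ F r' y) : ℝ) := by
          rw [hcnt]
          refine Finset.sum_congr rfl fun y _ => ?_
          by_cases h2 : F r (y : ℤ) <;> by_cases h3 : F r' (y : ℤ) <;> simp [h2, h3]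
        rw [hc, cnt_eq_dn hL ((hF r hr).and (hF r' hr'))]
        refine mul_le_mul_of_nonneg_left ?_ hL'.le
        by_cases h2 : r' = r
        · rw [if_pos h2]
          have h3 : dn (fun y => F r y ∧ F r' y) ≤ dn (F r) :=
            dn_mono hL ((hF r hr).and (hF r' hr')) (hF r hr) fun y hy => hy.1
          have h4 := mul_nonneg (dn_nonneg (F r)) (dn_nonneg (F r'))
          linarith
        · rw [if_neg h2, zero_add]
          exact h r hr r' hr' (Ne.symm h2)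
      refine (Finset.sum_le_sum e5).trans (le_of_eq ?_)
      rw [← Finset.mul_sum, Finset.sum_add_distrib, Finset.sum_ite_eq' R r, if_pos hr,
        ← Finset.mul_sum]
    refine (Finset.sum_le_sum e4).trans (le_of_eq ?_)
    rw [← Finset.mul_sum, Finset.sum_add_distrib, ← Finset.sum_mul]
    ring
  have hnone : Per L (fun y => ¬ ∃ r ∈ R, F r y) := (Per.exists hF).not
  have e6 : (cnt L (fun y => ¬ ∃ r ∈ R, F r y) : ℝ) * σ ^ 2 ≤ ∑ y ∈ range L, (f y - σ) ^ 2 := by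
    rw [hcnt, Finset.sum_mul]
    refine Finset.sum_le_sum fun y _ => ?_
    by_cases h2 : ∃ r ∈ R, F r (y : ℤ)
    · rw [if_neg (not_not.mpr h2), zero_mul]
      positivity
    · rw [if_pos h2, one_mul]
      have h3 : f y = 0 := by
        simp only [hf]
        refine Finset.sum_eq_zero fun r hr => ?_
        rw [if_neg]
        exact fun h4 => h2 ⟨r, hr, h4⟩
      rw [h3]
      apply le_of_eq
      ring
  have e7 : ∑ y ∈ range L, (f y - σ) ^ 2
      = ∑ y ∈ range L, f y ^ 2 - 2 * σ * ∑ y ∈ range L, f y + L * σ ^ 2 := by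
    have : ∀ y ∈ range L, (f y - σ) ^ 2 = f y ^ 2 - 2 * σ * f y + σ ^ 2 := fun y _ => by ring
    rw [Finset.sum_congr rfl this, Finset.sum_add_distrib, Finset.sum_sub_distrib, ← Finset.mul_sum,
      Finset.sum_const, card_range, nsmul_eq_mul]
  rw [e7, e1, cnt_eq_dn hL hnone] at e6
  have e8 : (L : ℝ) * (dn (fun y => ¬ ∃ r ∈ R, F r y) * σ ^ 2) ≤ L * σ := by nlinarith
  have e9 : dn (fun y => ¬ ∃ r ∈ R, F r y) * σ ^ 2 ≤ σ := le_of_mul_le_mul_left e8 hL'
  have e10 : (dn (fun y => ¬ ∃ r ∈ R, F r y) * σ) * σ ≤ 1 * σ := by nlinarith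
  exact le_of_mul_le_mul_right e10 h0

end Pool.Agent.E25C
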