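import Mathlib
import Pool.Agent.E25C.Per
import Pool.Agent.E25C.Mert

/-!
# Packing argument for one centre, and decoupling of different centres
-/

namespace Pool.Agent.E25C

open Finset

/-- `h + Q z` lies in one of the classes in `S`. -/
def HS (n : ℕ → ℕ) (a : ℕ → ℤ) (Q : ℕ) (h : ℤ) (S : Finset ℕ) (z : ℤ) : Prop :=
  ∃ i ∈ S, h + Q * z ≡ a i [ZMOD (n i : ℤ)]

variable {n : ℕ → ℕ} {a : ℕ → ℤ} {Q : ℕ} {h : ℤ}

lemma HS_per {S : Finset ℕ} {L : ℕ} (hL : ∀ i ∈ S, n i ∣ L) : Per L (HS n a Q h S) := by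
  refine Per.exists fun i hi => ?_
  intro y y' hy hF
  have h1 : y' ≡ y [ZMOD (n i : ℤ)] := hy.of_dvd (by exact_mod_cast hL i hi)
  exact ((h1.mul_left Q).add_left h).trans hF

lemma HS_mono {S S' : Finset ℕ} (h1 : S ⊆ S') {z : ℤ} (hz : HS n a Q h S z) : HS n a Q h S' z := by
  obtain ⟨i, hi, h2⟩ := hz
  exact ⟨i, h1 hi, h2⟩

lemma HS_per_prod {S T : Finset ℕ} (hS : S ⊆ T) : Per (∏ i ∈ T, n i) (HS n a Q h S) :=
  HS_per fun i hi => dvd_prod_of_mem n (hS hi)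

lemma dn_HS_mono (hpos : ∀ i, 0 < n i) {S S' : Finset ℕ} (h1 : S ⊆ S') :
    dn (HS n a Q h S) ≤ dn (HS n a Q h S') :=
  dn_mono (prod_pos fun _ _ => hpos _) (HS_per_prod h1) (HS_per_prod (Subset.refl _))
    fun _ hz => HS_mono h1 hz

lemma dn_HS_empty : dn (HS n a Q h ∅) = 0 := by
  have : HS n a Q h ∅ = fun _ => False := by
    funext z
    simp [HS]
  rw [this, dn_false]

lemma per_cop {M P : ℕ} : Per P (fun t : ℤ => IsCoprime (1 + (M : ℤ) * t) (P : ℤ)) := by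
  intro y y' hy hF
  obtain ⟨k, hk⟩ := hy.symm.dvd
  have h1 : 1 + (M : ℤ) * y' = (1 + (M : ℤ) * y) + (P : ℤ) * (M * k) := by
    linear_combination (M : ℤ) * hk
  change IsCoprime (1 + (M : ℤ) * y') (P : ℤ)
  rw [h1]
  exact hF.add_mul_left_left _

lemma dn_cop {M P : ℕ} (hP : 0 < P) (hc : Nat.Coprime M P) :
    dn (fun t : ℤ => IsCoprime (1 + (M : ℤ) * t) (P : ℤ)) = (P.totient : ℝ) / P := by
  classical
  rw [dn_eq hP per_cop, cnt_eq]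
  congr 2
  exact count_coprime hP hc

/-- All prime factors of `N` are at most `X` and `w` has no prime factor up to `X`. -/
lemma cop_of_PP {X M : ℕ} {t : ℤ} (hc : IsCoprime (1 + (M : ℤ) * t) ((PP X M : ℕ) : ℤ)) {N : ℕ}
    (hN : 0 < N) (hNX : N ≤ X) : IsCoprime (1 + (M : ℤ) * t) (N : ℤ) := by
  rw [Int.isCoprime_iff_gcd_eq_one]
  by_contra hne
  obtain ⟨p, hp, hpd⟩ := Nat.exists_prime_and_dvd hne
  have h1 : (p : ℤ) ∣ 1 + (M : ℤ) * t :=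
    (Int.natCast_dvd_natCast.mpr hpd).trans (Int.gcd_dvd_left _ _)
  have h2 : p ∣ N := by
    have : (p : ℤ) ∣ (N : ℤ) := (Int.natCast_dvd_natCast.mpr hpd).trans (Int.gcd_dvd_right _ _)
    exact_mod_cast this
  have hpX : p ≤ X := (Nat.le_of_dvd hN h2).trans hNX
  by_cases hpM : p ∣ M
  · have h3 : (p : ℤ) ∣ (M : ℤ) * t := Dvd.dvd.mul_right (by exact_mod_cast hpM) t
    have h4 : (p : ℤ) ∣ 1 := (dvd_add_left h3).mp h1
    exact hp.one_lt.ne' (by exact_mod_cast Int.eq_one_of_dvd_one (by positivity) h4)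
  · have h3 : p ∣ PP X M := dvd_PP hp hpX hpM
    have h4 : (p : ℤ) ∣ 1 := by
      obtain ⟨α, β, hαβ⟩ := hc
      rw [← hαβ]
      exact dvd_add (Dvd.dvd.mul_left h1 α) (Dvd.dvd.mul_left (by exact_mod_cast h3) β)
    exact hp.one_lt.ne' (by exact_mod_cast Int.eq_one_of_dvd_one (by positivity) h4)

/-- Packing for one centre `u / W`. -/
theorem pack (hpos : ∀ i, 0 < n i) {W : ℕ} (hW : 0 < W) {u : ℤ} {X : ℕ}
    {S0 S : Finset ℕ} (hS0 : S0 ⊆ S) (hu : ∀ i ∈ S, (n i : ℤ) ∣ W * a i - u)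
    (hX : ∀ i ∈ S0, n i ≤ X) (J : Finset ℕ)
    (hJh : ∀ m ∈ J, (Q : ℤ) ∣ (m : ℤ) - h)
    (hJ0 : ∀ m ∈ J, 0 < (W : ℤ) * m - u) (hJX : ∀ m ∈ J, (W : ℤ) * m - u ≤ X)
    (hJ1 : ∀ m ∈ J, ∃ i ∈ S, (m : ℤ) ≡ a i [ZMOD (n i : ℤ)])
    (hJ2 : ∀ m ∈ J, ¬ ∃ i ∈ S0, (m : ℤ) ≡ a i [ZMOD (n i : ℤ)]) :
    (∑ m ∈ J, 1 / (((W : ℤ) * m - u : ℤ) : ℝ)) * (((PP X (W * Q)).totient : ℝ) / PP X (W * Q))
      ≤ dn (HS n a Q h S) - dn (HS n a Q h S0) := by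
  set P : ℕ := PP X (W * Q) with hP
  have hP0 : 0 < P := PP_pos _ _
  set N : ℕ → ℕ := fun m => ((W : ℤ) * m - u).toNat with hN
  have hNc : ∀ m ∈ J, ((N m : ℕ) : ℤ) = (W : ℤ) * m - u := fun m hm => by
    simp only [hN]
    exact Int.toNat_of_nonneg (hJ0 m hm).le
  have hN0 : ∀ m ∈ J, 0 < N m := fun m hm => by
    have h1 := hNc m hm
    have h2 := hJ0 m hm
    omega
  have hNX : ∀ m ∈ J, N m ≤ X := fun m hm => by
    have h1 := hNc m hm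
    have h2 := hJX m hm
    omega
  set c : ℕ → ℤ := fun m => ((m : ℤ) - h) / Q with hc
  have hcc : ∀ m ∈ J, (m : ℤ) = h + Q * c m := fun m hm => by
    simp only [hc]
    rw [Int.mul_ediv_cancel' (hJh m hm)]
    ring
  set T : ℕ → ℤ → Prop := fun m z => ∃ t : ℤ, z = c m + (N m : ℤ) * t ∧
    IsCoprime (1 + ((W * Q : ℕ) : ℤ) * t) (P : ℤ) with hT
  have hTper : ∀ m ∈ J, Per (N m * P) (T m) := fun m _ => per_lin per_cop (c m)
  have hTdn : ∀ m ∈ J, dn (T m) = 1 / (((W : ℤ) * m - u : ℤ) : ℝ) * ((P.totient : ℝ) / P) := by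
    intro m hm
    have h1 : dn (T m) = dn (fun t : ℤ => IsCoprime (1 + ((W * Q : ℕ) : ℤ) * t) (P : ℤ)) / N m :=
      dn_lin hP0 per_cop (hN0 m hm) (c m)
    rw [h1, dn_cop hP0 (PP_coprime X (W * Q))]
    have h2 : (((W : ℤ) * m - u : ℤ) : ℝ) = ((N m : ℕ) : ℝ) := by
      rw [← hNc m hm]
      simp
    rw [h2]
    ring
  rw [Finset.sum_mul, ← Finset.sum_congr rfl hTdn]
  -- the value of `W y - u` on the set `T m`
  have hval : ∀ m ∈ J, ∀ z t : ℤ, z = c m + (N m : ℤ) * t →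
      (W : ℤ) * (h + Q * z) - u = (N m : ℤ) * (1 + ((W * Q : ℕ) : ℤ) * t) := by
    intro m hm z t hz
    have h1 := hNc m hm
    have h2 := hcc m hm
    rw [hz]
    push_cast
    linear_combination (-(1 : ℤ)) * h1 - (W : ℤ) * h2
  set L : ℕ := (∏ i ∈ S, n i) * ∏ m ∈ J, (N m * P) with hL
  have hL0 : 0 < L := Nat.mul_pos (prod_pos fun i _ => hpos i)
    (prod_pos fun m hm => Nat.mul_pos (hN0 m hm) hP0)
  refine dn_packing (L := L) hL0 ?_ ?_ ?_ (fun _ hz => HS_mono hS0 hz) ?_ ?_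
  · intro m hm
    exact (hTper m hm).of_dvd (Dvd.dvd.mul_left (dvd_prod_of_mem (fun m => N m * P) hm) _)
  · exact (HS_per_prod (Subset.refl S)).of_dvd (Dvd.intro _ rfl)
  · exact (HS_per_prod hS0).of_dvd (Dvd.intro _ rfl)
  · rintro m hm z ⟨t, hz, ht⟩
    have hy : h + Q * z = (m : ℤ) + (N m : ℤ) * (Q * t) := by
      rw [hz, hcc m hm]
      ring
    constructor
    · obtain ⟨i, hi, h1⟩ := hJ1 m hm
      refine ⟨i, hi, ?_⟩
      have h2 : (n i : ℤ) ∣ (N m : ℤ) := by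
        rw [hNc m hm]
        have h3 : (n i : ℤ) ∣ (W : ℤ) * ((m : ℤ) - a i) := Dvd.dvd.mul_left (h1.symm.dvd) _
        have h4 := dvd_add h3 (hu i hi)
        have h5 : (W : ℤ) * ((m : ℤ) - a i) + (W * a i - u) = W * m - u := by ring
        rwa [h5] at h4
      refine Int.ModEq.trans ?_ h1
      rw [hy]
      exact (Int.modEq_iff_dvd.mpr (by
        have : (m : ℤ) - ((m : ℤ) + (N m : ℤ) * (Q * t)) = (N m : ℤ) * (-(Q * t)) := by ring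
        rw [this]
        exact Dvd.dvd.mul_right h2 _))
    · rintro ⟨i, hi, h1⟩
      refine hJ2 m hm ⟨i, hi, ?_⟩
      have h2 : (n i : ℤ) ∣ (N m : ℤ) * (1 + ((W * Q : ℕ) : ℤ) * t) := by
        rw [← hval m hm z t hz]
        have h3 : (n i : ℤ) ∣ (W : ℤ) * ((h + Q * z) - a i) := Dvd.dvd.mul_left (h1.symm.dvd) _
        have h4 := dvd_add h3 (hu i (hS0 hi))
        have h5 : (W : ℤ) * ((h + Q * z) - a i) + (W * a i - u) = W * (h + Q * z) - u := by ring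
        rwa [h5] at h4
      have h3 : IsCoprime ((n i : ℕ) : ℤ) (1 + ((W * Q : ℕ) : ℤ) * t) :=
        (cop_of_PP ht (hpos i) (hX i hi)).symm
      have h4 : (n i : ℤ) ∣ (N m : ℤ) := h3.dvd_of_dvd_mul_right h2
      refine Int.ModEq.trans ?_ h1
      rw [hy]
      exact (Int.modEq_iff_dvd.mpr (by
        have : ((m : ℤ) + (N m : ℤ) * (Q * t)) - (m : ℤ) = (N m : ℤ) * (Q * t) := by ring
        rw [this]
        exact Dvd.dvd.mul_right h4 _))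
  · rintro m hm m' hm' z ⟨t, hz, ht⟩ ⟨t', hz', ht'⟩
    have h1 := hval m hm z t hz
    have h2 := hval m' hm' z t' hz'
    have h3 : (N m : ℤ) * (1 + ((W * Q : ℕ) : ℤ) * t) = (N m' : ℤ) * (1 + ((W * Q : ℕ) : ℤ) * t') := by
      rw [← h1, ← h2]
    have c1 : IsCoprime ((N m : ℕ) : ℤ) (1 + ((W * Q : ℕ) : ℤ) * t') :=
      (cop_of_PP ht' (hN0 m hm) (hNX m hm)).symm
    have c2 : IsCoprime ((N m' : ℕ) : ℤ) (1 + ((W * Q : ℕ) : ℤ) * t) :=
      (cop_of_PP ht (hN0 m' hm') (hNX m' hm')).symm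
    have d1 : (N m : ℤ) ∣ (N m' : ℤ) := c1.dvd_of_dvd_mul_right (by rw [← h3]; exact Dvd.intro _ rfl)
    have d2 : (N m' : ℤ) ∣ (N m : ℤ) := c2.dvd_of_dvd_mul_right (by rw [h3]; exact Dvd.intro _ rfl)
    have e1 : N m = N m' := Nat.dvd_antisymm (by exact_mod_cast d1) (by exact_mod_cast d2)
    have e2 : (W : ℤ) * m = W * m' := by
      have h4 := hNc m hm
      have h5 := hNc m' hm'
      rw [e1] at h4
      linarith
    have e3 : (m : ℤ) = m' := mul_left_cancel₀ (by positivity) e2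
    exact_mod_cast e3

/-- Two different centres are decoupled in a residue class modulo `Q`. -/
theorem sep (hpos : ∀ i, 0 < n i) {W : ℕ} (hQ : 0 < Q) {u u' : ℤ}
    {S S' : Finset ℕ} (hu : ∀ i ∈ S, (n i : ℤ) ∣ W * a i - u) (hu' : ∀ i ∈ S', (n i : ℤ) ∣ W * a i - u')
    (hG : ∀ i ∈ S, ∀ j ∈ S', Int.gcd (Nat.gcd (n i) (n j) : ℤ) (u - u') ∣ Q) :
    dn (fun z => HS n a Q h S z ∧ HS n a Q h S' z) ≤ dn (HS n a Q h S) * dn (HS n a Q h S') := by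
  classical
  set L : ℕ := ∏ i ∈ S ∪ S', n i with hL
  have hL0 : 0 < L := prod_pos fun i _ => hpos i
  have hiL : ∀ i ∈ S, n i ∣ L := fun i hi => dvd_prod_of_mem n (mem_union_left _ hi)
  have hiL' : ∀ i ∈ S', n i ∣ L := fun i hi => dvd_prod_of_mem n (mem_union_right _ hi)
  refine dn_decouple hL0 (HS_per hiL) (HS_per hiL') fun p hp _ => ?_
  set q : ℕ := Q.factorization p with hq
  have hqQ : (p ^ q : ℕ) ∣ Q := Nat.ordProj_dvd Q p
  have hqn : ¬ p ^ (q + 1) ∣ Q := Nat.pow_succ_factorization_not_dvd hQ.ne' hp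
  set l : ℕ := L.factorization p with hl
  -- the general facts
  have hle : ∀ i, n i ∣ L → p ^ (q + 1) ∣ n i → q + 1 ≤ l := by
    intro i h1 h2
    exact (hp.pow_dvd_iff_le_factorization hL0.ne').mp (h2.trans h1)
  have hC : ∀ (R : Finset ℕ) (w : ℤ), (∀ i ∈ R, n i ∣ L) → ∀ y y' : ℤ, y' ≡ y [ZMOD ((p ^ l : ℕ) : ℤ)] →
      ((∃ i ∈ R, p ^ (q + 1) ∣ n i) ∧ ((p ^ (q + 1) : ℕ) : ℤ) ∣ W * (h + Q * y) - w) →
      ((∃ i ∈ R, p ^ (q + 1) ∣ n i) ∧ ((p ^ (q + 1) : ℕ) : ℤ) ∣ W * (h + Q * y') - w) := by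
    rintro R w hR y y' hy ⟨⟨i, hi, h1⟩, h2⟩
    refine ⟨⟨i, hi, h1⟩, ?_⟩
    have h3 : y' ≡ y [ZMOD ((p ^ (q + 1) : ℕ) : ℤ)] :=
      hy.of_dvd (by exact_mod_cast pow_dvd_pow p (hle i (hR i hi) h1))
    obtain ⟨k, hk⟩ := h3.symm.dvd
    have h4 : (W : ℤ) * (h + Q * y') - w = (W * (h + Q * y) - w) + ((p ^ (q + 1) : ℕ) : ℤ) * (W * Q * k) := by
      linear_combination ((W : ℤ) * Q) * hk
    rw [h4]
    exact dvd_add h2 (Dvd.intro _ rfl)
  have hF : ∀ (R : Finset ℕ) (w : ℤ), (∀ i ∈ R, n i ∣ L) → (∀ i ∈ R, (n i : ℤ) ∣ W * a i - w) →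
      Free L p (HS n a Q h R)
        (fun y => (∃ i ∈ R, p ^ (q + 1) ∣ n i) ∧ ((p ^ (q + 1) : ℕ) : ℤ) ∣ W * (h + Q * y) - w) := by
    rintro R w hR hw y y' ⟨i, hi, h1⟩ h2 hy
    refine ⟨i, hi, ?_⟩
    -- `p ^ (q + 1)` does not divide `n i`
    have h3 : ¬ p ^ (q + 1) ∣ n i := by
      intro h4
      refine h2 ⟨⟨i, hi, h4⟩, ?_⟩
      have h5 : (n i : ℤ) ∣ W * (h + Q * y) - w := by
        have h6 : (n i : ℤ) ∣ (W : ℤ) * ((h + Q * y) - a i) := Dvd.dvd.mul_left (h1.symm.dvd) _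
        have h7 := dvd_add h6 (hw i hi)
        have h8 : (W : ℤ) * ((h + Q * y) - a i) + (W * a i - w) = W * (h + Q * y) - w := by ring
        rwa [h8] at h7
      exact (by exact_mod_cast h4 : ((p ^ (q + 1) : ℕ) : ℤ) ∣ (n i : ℤ)).trans h5
    set e : ℕ := (n i).factorization p with he
    have he1 : e ≤ q := by
      by_contra hcon
      exact h3 ((hp.pow_dvd_iff_le_factorization (hpos i).ne').mpr (by omega))
    have hsplit : p ^ e * (n i / p ^ e) = n i := Nat.ordProj_mul_ordCompl_eq_self (n i) p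
    have hco : Nat.Coprime (p ^ e) (n i / p ^ e) :=
      Nat.Coprime.pow_left _ (Nat.coprime_ordCompl hp (hpos i).ne')
    have hdv : (n i / p ^ e) ∣ L / p ^ l := by
      have h4 : n i / p ^ e ∣ L := (Nat.ordCompl_dvd (n i) p).trans (hR i hi)
      have h5 : p ^ l * (L / p ^ l) = L := Nat.ordProj_mul_ordCompl_eq_self L p
      rw [← h5] at h4
      have h6 : Nat.Coprime (n i / p ^ e) (p ^ l) :=
        (Nat.Coprime.pow_left _ (Nat.coprime_ordCompl hp (hpos i).ne')).symm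
      exact h6.dvd_of_dvd_mul_left h4
    have m1 : h + Q * y' ≡ h + Q * y [ZMOD ((n i / p ^ e : ℕ) : ℤ)] :=
      ((hy.of_dvd (by exact_mod_cast hdv)).mul_left Q).add_left h
    have m2 : h + Q * y' ≡ h + Q * y [ZMOD ((p ^ e : ℕ) : ℤ)] := by
      refine Int.modEq_iff_dvd.mpr ?_
      have h4 : (h + Q * y) - (h + Q * y') = (Q : ℤ) * (y - y') := by ring
      rw [h4]
      refine Dvd.dvd.mul_right ?_ _
      exact_mod_cast (pow_dvd_pow p he1).trans hqQ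
    have m3 := modEq_mul hco m2 m1
    rw [hsplit] at m3
    exact m3.trans h1
  refine ⟨fun y => (∃ i ∈ S, p ^ (q + 1) ∣ n i) ∧ ((p ^ (q + 1) : ℕ) : ℤ) ∣ W * (h + Q * y) - u,
    fun y => (∃ i ∈ S', p ^ (q + 1) ∣ n i) ∧ ((p ^ (q + 1) : ℕ) : ℤ) ∣ W * (h + Q * y) - u',
    ?_, hC S u hiL, hC S' u' hiL', hF S u hiL hu, hF S' u' hiL' hu'⟩
  rintro y ⟨⟨⟨i, hi, h1⟩, h2⟩, ⟨⟨j, hj, h3⟩, h4⟩⟩
  refine hqn ?_
  refine Dvd.dvd.trans ?_ (hG i hi j hj)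
  have h5 : ((p ^ (q + 1) : ℕ) : ℤ) ∣ u - u' := by
    have h6 := dvd_sub h4 h2
    have h7 : ((W : ℤ) * (h + Q * y) - u') - (W * (h + Q * y) - u) = u - u' := by ring
    rwa [h7] at h6
  have h6 : p ^ (q + 1) ∣ Nat.gcd (n i) (n j) := Nat.dvd_gcd h1 h3
  have h7 : ((p ^ (q + 1) : ℕ) : ℤ) ∣ ((Int.gcd (Nat.gcd (n i) (n j) : ℤ) (u - u') : ℕ) : ℤ) :=
    Int.dvd_coe_gcd (by exact_mod_cast h6) h5
  exact_mod_cast h7

end Pool.Agent.E25C
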