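import Mathlib
import Pool.Agent.E25.LogDens
import Pool.Agent.E25C.Pack

/-!
# Approximation by finitely many classes in logarithmic mean
-/

namespace Pool.Agent.E25C

open Finset Filter Topology
open scoped Classical

/-- `∑_{m ≤ x, m ∈ P} 1/m`. -/
noncomputable def ls (P : Set ℕ) (x : ℕ) : ℝ :=
  ∑ m ∈ Icc 1 x, P.indicator (fun m : ℕ => (1 : ℝ) / (m : ℝ)) m

lemma ls_eq (P : Set ℕ) (x : ℕ) : ls P x = ∑ m ∈ (Icc 1 x).filter (fun m => m ∈ P), (1 : ℝ) / m := by
  unfold ls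
  rw [Finset.sum_filter]
  refine Finset.sum_congr rfl fun m _ => ?_
  by_cases h : m ∈ P
  · rw [Set.indicator_of_mem h, if_pos h]
  · rw [Set.indicator_of_notMem h, if_neg h]

lemma ls_fin (P : Set ℕ) (x : ℕ) : ∃ A : Finset ℕ, (∀ m, m ∈ A ↔ ((1 ≤ m ∧ m ≤ x) ∧ m ∈ P)) ∧
    ls P x = ∑ m ∈ A, (1 : ℝ) / m :=
  ⟨(Icc 1 x).filter (fun m => m ∈ P), fun m => by rw [mem_filter, mem_Icc], ls_eq P x⟩

lemma ls_nonneg (P : Set ℕ) (x : ℕ) : 0 ≤ ls P x := by
  rw [ls_eq]
  exact Finset.sum_nonneg fun m _ => by positivity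

lemma ls_mono {P P' : Set ℕ} (x : ℕ) (h : ∀ m, 1 ≤ m → m ≤ x → m ∈ P → m ∈ P') :
    ls P x ≤ ls P' x := by
  rw [ls_eq, ls_eq]
  refine Finset.sum_le_sum_of_subset_of_nonneg ?_ fun m _ _ => by positivity
  intro m hm
  rw [mem_filter, mem_Icc] at hm ⊢
  exact ⟨hm.1, h m hm.1.1 hm.1.2 hm.2⟩

lemma ls_cover {ι : Type*} {P : Set ℕ} {J : Finset ι} {Q : ι → Set ℕ} (x : ℕ)
    (h : ∀ m, 1 ≤ m → m ≤ x → m ∈ P → ∃ j ∈ J, m ∈ Q j) : ls P x ≤ ∑ j ∈ J, ls (Q j) x := by
  have h1 : ls P x ≤ ∑ m ∈ (Icc 1 x).filter (fun m => m ∈ P),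
      ∑ j ∈ J, (if m ∈ Q j then (1 : ℝ) / m else 0) := by
    rw [ls_eq]
    refine Finset.sum_le_sum fun m hm => ?_
    rw [mem_filter, mem_Icc] at hm
    obtain ⟨j, hj, h2⟩ := h m hm.1.1 hm.1.2 hm.2
    have h3 : (if m ∈ Q j then (1 : ℝ) / m else 0) = 1 / m := if_pos h2
    exact (le_of_eq h3.symm).trans (Finset.single_le_sum (f := fun j => if m ∈ Q j then (1 : ℝ) / m else 0)
      (fun j _ => by split_ifs <;> positivity) hj)
  refine h1.trans ?_
  rw [Finset.sum_comm]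
  refine Finset.sum_le_sum fun j _ => ?_
  rw [ls_eq, Finset.sum_filter (s := Icc 1 x) (p := fun m => m ∈ Q j)]
  refine Finset.sum_le_sum_of_subset_of_nonneg (filter_subset _ _) fun m _ _ => ?_
  split_ifs <;> positivity

lemma ls_union {P Q R : Set ℕ} (x : ℕ) (h : ∀ m, 1 ≤ m → m ≤ x → m ∈ P → m ∈ Q ∨ m ∈ R) :
    ls P x ≤ ls Q x + ls R x := by
  have h1 := ls_cover (P := P) (J := (Finset.univ : Finset Bool)) (Q := fun b => if b then Q else R) x
    (fun m h2 h3 h4 => by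
      rcases h m h2 h3 h4 with h5 | h5
      · exact ⟨true, mem_univ _, by simpa using h5⟩
      · exact ⟨false, mem_univ _, by simpa using h5⟩)
  simpa using h1

lemma ls_small (N x : ℕ) : ls {m | m < N} x ≤ N := by
  obtain ⟨A, hA, hE⟩ := ls_fin {m | m < N} x
  rw [hE]
  calc ∑ m ∈ A, (1 : ℝ) / m
      ≤ ∑ m ∈ A, (1 : ℝ) := by
        refine Finset.sum_le_sum fun m hm => ?_
        rw [hA] at hm
        have : (1 : ℝ) ≤ m := by exact_mod_cast hm.1.1
        rw [div_le_one (by linarith)]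
        exact this
    _ = (#A : ℝ) := by simp
    _ ≤ N := by
        have h1 : #A ≤ #(range N) := by
          refine card_le_card fun m hm => ?_
          rw [hA] at hm
          exact mem_range.mpr hm.2
        rw [card_range] at h1
        exact_mod_cast h1

lemma sum_recip_le (x : ℕ) : ∑ m ∈ Icc 1 x, (1 : ℝ) / m ≤ 1 + Real.log x := by
  have h1 := harmonic_le_one_add_log x
  have h2 : ((harmonic x : ℚ) : ℝ) = ∑ m ∈ Icc 1 x, (1 : ℝ) / m := by
    rw [harmonic_eq_sum_Icc]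
    push_cast
    exact Finset.sum_congr rfl fun m _ => by rw [one_div]
  rw [← h2]
  exact h1

lemma log_atTop : Tendsto (fun x : ℕ => Real.log (x : ℝ)) atTop atTop :=
  Real.tendsto_log_atTop.comp tendsto_natCast_atTop_atTop

/-- One class, from its modulus on. -/
lemma ls_class {N : ℕ} (hN : 0 < N) (c : ℤ) (x : ℕ) :
    ls {m | N ≤ m ∧ (m : ℤ) ≡ c [ZMOD (N : ℤ)]} x ≤ (1 / N) * (1 + Real.log x) := by
  obtain ⟨A, hA, hE⟩ := ls_fin {m | N ≤ m ∧ (m : ℤ) ≡ c [ZMOD (N : ℤ)]} x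
  rw [hE]
  have hN' : (0 : ℝ) < N := by exact_mod_cast hN
  calc ∑ m ∈ A, (1 : ℝ) / m ≤ ∑ m ∈ A, (1 / N) * ((1 : ℝ) / ((m / N : ℕ) : ℝ)) := by
        refine Finset.sum_le_sum fun m hm => ?_
        rw [hA] at hm
        have h1 : 0 < m / N := Nat.div_pos hm.2.1 hN
        have h2 : (0 : ℝ) < ((m / N : ℕ) : ℝ) := by exact_mod_cast h1
        have h3 : (N : ℝ) * ((m / N : ℕ) : ℝ) ≤ m := by exact_mod_cast Nat.mul_div_le m N
        rw [div_mul_div_comm, one_mul]
        exact one_div_le_one_div_of_le (by positivity) h3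
    _ = (1 / N) * ∑ k ∈ A.image (fun m => m / N), (1 : ℝ) / k := by
        rw [← Finset.mul_sum, Finset.sum_image]
        intro m hm m' hm' h1
        rw [mem_coe, hA] at hm hm'
        have h2 : (m : ℤ) ≡ m' [ZMOD (N : ℤ)] := hm.2.2.trans hm'.2.2.symm
        have h3 : m % N = m' % N := Int.natCast_modEq_iff.mp h2
        have h1' : m / N = m' / N := h1
        rw [← Nat.div_add_mod m N, ← Nat.div_add_mod m' N, h3, h1']
    _ ≤ (1 / N) * ∑ k ∈ Icc 1 x, (1 : ℝ) / k := by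
        refine mul_le_mul_of_nonneg_left ?_ (by positivity)
        refine Finset.sum_le_sum_of_subset_of_nonneg ?_ fun m _ _ => by positivity
        intro k hk
        rw [mem_image] at hk
        obtain ⟨m, hm, rfl⟩ := hk
        rw [hA] at hm
        exact mem_Icc.mpr ⟨Nat.div_pos hm.2.1 hN, (Nat.div_le_self _ _).trans hm.1.2⟩
    _ ≤ _ := mul_le_mul_of_nonneg_left (sum_recip_le x) (by positivity)

/-- A periodic set has a logarithmic density. -/
lemma ls_per {L : ℕ} (hL : 0 < L) {F : ℤ → Prop} (hF : Per L F) :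
    Tendsto (fun x : ℕ => ls {m : ℕ | F (m : ℤ)} x / Real.log x) atTop (𝓝 (dn F)) := by
  refine Pool.Agent.E25.logdens_of_natdens {m : ℕ | F (m : ℤ)} (dn F) ?_
  have hL' : (0 : ℝ) < L := by exact_mod_cast hL
  have hd0 := dn_nonneg F
  have hd1 := dn_le_one F
  have hcard : ∀ N : ℕ, (#{m ∈ range N | F ((m : ℕ) : ℤ)} : ℝ) = cnt N F := fun N => by
    rw [cnt_eq]
  have key : ∀ x : ℕ, |(#{m ∈ Icc 1 x | m ∈ {m : ℕ | F (m : ℤ)}} : ℝ) - x * dn F| ≤ L + 1 := by
    intro x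
    have hmul : ∀ k : ℕ, (cnt (L * k) F : ℝ) = k * (L * dn F) := by
      intro k
      rw [cnt_mul hF k]
      push_cast
      rw [cnt_eq_dn hL hF]
    have hup : (#{m ∈ Icc 1 x | m ∈ {m : ℕ | F (m : ℤ)}} : ℝ) ≤ cnt (L * (x / L + 1)) F := by
      rw [← hcard]
      have : #{m ∈ Icc 1 x | m ∈ {m : ℕ | F (m : ℤ)}} ≤ #{m ∈ range (L * (x / L + 1)) | F ((m : ℕ) : ℤ)} := by
        refine card_le_card fun m hm => ?_
        rw [mem_filter, mem_Icc] at hm
        rw [mem_filter, mem_range]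
        have h2 := Nat.lt_mul_div_succ x hL
        exact ⟨by omega, hm.2⟩
      exact_mod_cast this
    have hlow : (cnt (L * (x / L)) F : ℝ) ≤ (#{m ∈ Icc 1 x | m ∈ {m : ℕ | F (m : ℤ)}} : ℝ) + 1 := by
      rw [← hcard]
      have : #{m ∈ range (L * (x / L)) | F ((m : ℕ) : ℤ)}
          ≤ #{m ∈ Icc 1 x | m ∈ {m : ℕ | F (m : ℤ)}} + 1 := by
        calc #{m ∈ range (L * (x / L)) | F ((m : ℕ) : ℤ)}
            ≤ #(insert 0 {m ∈ Icc 1 x | m ∈ {m : ℕ | F (m : ℤ)}}) := by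
              refine card_le_card fun m hm => ?_
              have h2 := Nat.mul_div_le x L
              rw [mem_filter, mem_range] at hm
              rw [mem_insert, mem_filter, mem_Icc]
              rcases Nat.eq_zero_or_pos m with h | h
              · exact Or.inl h
              · exact Or.inr ⟨⟨h, by omega⟩, hm.2⟩
          _ ≤ _ := card_insert_le _ _
      exact_mod_cast this
    rw [hmul] at hup hlow
    push_cast at hup
    have h4 : ((x / L : ℕ) : ℝ) * L ≤ x := by exact_mod_cast Nat.div_mul_le_self x L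
    have h5 : (x : ℝ) ≤ ((x / L : ℕ) : ℝ) * L + L := by
      have := Nat.lt_div_mul_add hL (a := x)
      exact_mod_cast this.le
    rw [abs_le]
    constructor
    · nlinarith
    · nlinarith
  rw [Metric.tendsto_atTop]
  intro δ hδ
  have h1 : Tendsto (fun x : ℕ => ((L : ℝ) + 1) / x) atTop (𝓝 0) :=
    tendsto_const_nhds.div_atTop tendsto_natCast_atTop_atTop
  obtain ⟨N, hN⟩ := eventually_atTop.mp ((h1.eventually_lt_const hδ).and (eventually_ge_atTop 1))
  refine ⟨N, fun x hx => ?_⟩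
  obtain ⟨h2, h3⟩ := hN x hx
  have hx0 : (0 : ℝ) < x := by exact_mod_cast h3
  rw [Real.dist_eq]
  have h4 := key x
  have h5 : (#{m ∈ Icc 1 x | m ∈ {m : ℕ | F (m : ℤ)}} : ℝ) / x - dn F
      = ((#{m ∈ Icc 1 x | m ∈ {m : ℕ | F (m : ℤ)}} : ℝ) - x * dn F) / x := by
    field_simp
  rw [h5, abs_div, abs_of_pos hx0]
  refine lt_of_le_of_lt ?_ h2
  gcongr

variable {n : ℕ → ℕ} {a : ℕ → ℤ}

/-- Integers hit by a class of `S`, counted from the modulus on, and missed by the first `k` classes. -/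
def New (n : ℕ → ℕ) (a : ℕ → ℤ) (S : Set ℕ) (k : ℕ) : Set ℕ :=
  {m | (∃ i ∈ S, n i ≤ m ∧ (m : ℤ) ≡ a i [ZMOD (n i : ℤ)]) ∧
    ¬ ∃ i ∈ S, i < k ∧ (m : ℤ) ≡ a i [ZMOD (n i : ℤ)]}

lemma New_anti {S : Set ℕ} {k k' : ℕ} (h : k ≤ k') : New n a S k' ⊆ New n a S k := by
  rintro m ⟨h1, h2⟩
  refine ⟨h1, ?_⟩
  rintro ⟨i, hi, hik, h3⟩
  exact h2 ⟨i, hi, by omega, h3⟩

/-- The classes in `S` are approximated by finitely many of them. -/
def Approx (n : ℕ → ℕ) (a : ℕ → ℤ) (S : Set ℕ) : Prop :=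
  ∀ ε : ℝ, 0 < ε → ∃ k : ℕ, ∀ᶠ x : ℕ in atTop, ls (New n a S k) x ≤ ε * Real.log x

lemma Approx.union {S S' : Set ℕ} (h : Approx n a S) (h' : Approx n a S') :
    Approx n a (S ∪ S') := by
  intro ε hε
  obtain ⟨k, hk⟩ := h (ε / 2) (by positivity)
  obtain ⟨k', hk'⟩ := h' (ε / 2) (by positivity)
  refine ⟨max k k', ?_⟩
  filter_upwards [hk, hk'] with x h1 h2
  have h3 : ls (New n a (S ∪ S') (max k k')) x ≤ ls (New n a S k) x + ls (New n a S' k') x := by
    refine ls_union x fun m _ _ hm => ?_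
    obtain ⟨⟨i, hi, hi2⟩, hm2⟩ := hm
    rcases hi with hi | hi
    · left
      refine ⟨⟨i, hi, hi2⟩, ?_⟩
      rintro ⟨j, hj, hjk, hj2⟩
      exact hm2 ⟨j, Or.inl hj, lt_of_lt_of_le hjk (le_max_left _ _), hj2⟩
    · right
      refine ⟨⟨i, hi, hi2⟩, ?_⟩
      rintro ⟨j, hj, hjk, hj2⟩
      exact hm2 ⟨j, Or.inr hj, lt_of_lt_of_le hjk (le_max_right _ _), hj2⟩
  linarith

lemma Approx.empty : Approx n a ∅ := by
  intro ε hε
  refine ⟨0, ?_⟩
  filter_upwards [log_atTop.eventually_ge_atTop 0] with x hx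
  have h1 : ls (New n a ∅ 0) x ≤ 0 := by
    rw [ls_eq]
    refine le_of_eq (Finset.sum_eq_zero fun m hm => ?_)
    rw [mem_filter] at hm
    obtain ⟨⟨i, hi, _⟩, _⟩ := hm.2
    exact absurd hi (Set.notMem_empty i)
  exact h1.trans (by positivity)

lemma Approx.iUnion {s : ℕ} {S : Fin s → Set ℕ} (h : ∀ t, Approx n a (S t)) :
    Approx n a (⋃ t, S t) := by
  induction s with
  | zero =>
    have : (⋃ t, S t) = ∅ := by
      ext i
      simp
    rw [this]
    exact Approx.empty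
  | succ s ih =>
    have : (⋃ t, S t) = S 0 ∪ ⋃ t : Fin s, S t.succ := by
      ext i
      simp only [Set.mem_iUnion, Set.mem_union]
      exact Fin.exists_fin_succ
    rw [this]
    exact (h 0).union (ih fun t => h _)

lemma le_of_strictMono (hmono : StrictMono n) (hpos : ∀ i, 0 < n i) (i : ℕ) : i < n i := by
  induction i with
  | zero => exact hpos 0
  | succ i ih =>
    have : n i < n (i + 1) := hmono (Nat.lt_succ_self i)
    omega

/-- A set of classes with summable reciprocals. -/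
lemma Approx.of_summable (hmono : StrictMono n) (hpos : ∀ i, 0 < n i) {S : Set ℕ}
    (hS : Summable (S.indicator fun i => (1 : ℝ) / n i)) : Approx n a S := by
  intro ε hε
  obtain ⟨s, hs⟩ := summable_iff_vanishing_norm.mp hS (ε / 2) (by positivity)
  obtain ⟨k, hk⟩ : ∃ N, s ⊆ range N := s.exists_nat_subset_range
  refine ⟨k, ?_⟩
  filter_upwards [log_atTop.eventually_ge_atTop 1] with x hx
  set T : Finset ℕ := (range (x + 1)).filter (fun i => i ∈ S ∧ k ≤ i) with hT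
  have h1 : ls (New n a S k) x ≤ ∑ i ∈ T, ls {m | n i ≤ m ∧ (m : ℤ) ≡ a i [ZMOD (n i : ℤ)]} x := by
    refine ls_cover x fun m h2 h3 hm => ?_
    obtain ⟨⟨i, hi, hi2, hi3⟩, hm2⟩ := hm
    refine ⟨i, ?_, hi2, hi3⟩
    rw [hT, mem_filter, mem_range]
    have h4 := le_of_strictMono hmono hpos i
    refine ⟨by omega, hi, ?_⟩
    by_contra hcon
    exact hm2 ⟨i, hi, by omega, hi3⟩
  have h2 : ∑ i ∈ T, ls {m | n i ≤ m ∧ (m : ℤ) ≡ a i [ZMOD (n i : ℤ)]} x
      ≤ ∑ i ∈ T, (1 / (n i : ℝ)) * (1 + Real.log x) :=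
    Finset.sum_le_sum fun i _ => ls_class (hpos i) (a i) x
  have h3 : ∑ i ∈ T, (1 / (n i : ℝ)) ≤ ε / 2 := by
    have h4 := hs T (by
      rw [Finset.disjoint_left]
      intro i hi his
      have h5 := (mem_filter.mp hi).2.2
      have h6 := mem_range.mp (hk his)
      omega)
    have h5 : ∑ i ∈ T, (1 / (n i : ℝ)) = ∑ i ∈ T, S.indicator (fun i => (1 : ℝ) / n i) i :=
      Finset.sum_congr rfl fun i hi => by rw [Set.indicator_of_mem (mem_filter.mp hi).2.1]
    rw [h5]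
    exact (le_abs_self _).trans h4.le
  rw [← Finset.sum_mul] at h2
  have h4 : (∑ i ∈ T, (1 / (n i : ℝ))) * (1 + Real.log x) ≤ ε / 2 * (1 + Real.log x) :=
    mul_le_mul_of_nonneg_right h3 (by linarith)
  nlinarith

/-- Approximation implies the existence of the logarithmic density. -/
theorem logdens_of_approx (hpos : ∀ i, 0 < n i)
    (h : Approx n a Set.univ) :
    ∃ L : ℝ, Tendsto (fun x : ℕ =>
        (∑ m ∈ Finset.Icc 1 x,
            Set.indicator
              {m : ℕ | ∀ i, m < n i ∨ ¬ ((m : ℤ) ≡ a i [ZMOD (n i : ℤ)])}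
              (fun m : ℕ => (1 : ℝ) / (m : ℝ)) m) / Real.log (x : ℝ))
        atTop (𝓝 L) := by
  set D : ℕ → ℝ := fun k => dn (fun z => ∃ i ∈ range k, z ≡ a i [ZMOD (n i : ℤ)]) with hD
  have hper : ∀ {k k' : ℕ}, k ≤ k' → Per (∏ i ∈ range k', n i)
      (fun z => ∃ i ∈ range k, z ≡ a i [ZMOD (n i : ℤ)]) := by
    intro k k' hk
    refine Per.exists fun i hi => ?_
    intro y y' hy hF
    have h2 : n i ∣ ∏ i ∈ range k', n i := dvd_prod_of_mem n (range_mono hk hi)
    exact (hy.of_dvd (by exact_mod_cast h2)).trans hF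
  have hP : ∀ k : ℕ, 0 < ∏ i ∈ range k, n i := fun k => prod_pos fun i _ => hpos i
  have hmonoD : Monotone D := by
    intro k k' hk
    refine dn_mono (hP k') (hper hk) (hper le_rfl) ?_
    rintro y ⟨i, hi, h2⟩
    exact ⟨i, range_mono hk hi, h2⟩
  have hbdd : BddAbove (Set.range D) := ⟨1, by rintro _ ⟨k, rfl⟩; exact dn_le_one _⟩
  set Dinf : ℝ := ⨆ k, D k with hDinf
  have hle : ∀ k, D k ≤ Dinf := fun k => le_ciSup hbdd k
  have hlim : Tendsto D atTop (𝓝 Dinf) := tendsto_atTop_ciSup hmonoD hbdd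
  set B : Set ℕ := {m | ∃ i, n i ≤ m ∧ (m : ℤ) ≡ a i [ZMOD (n i : ℤ)]} with hB
  have hBlim : Tendsto (fun x : ℕ => ls B x / Real.log x) atTop (𝓝 Dinf) := by
    rw [Metric.tendsto_atTop]
    intro δ hδ
    obtain ⟨k1, hk1⟩ := h (δ / 4) (by positivity)
    obtain ⟨k2, hk2⟩ := eventually_atTop.mp (hlim.eventually (lt_mem_nhds
      (show Dinf - δ / 4 < Dinf by linarith)))
    set k := max k1 k2 with hk
    have hDk : Dinf - δ / 4 < D k := hk2 k (le_max_right _ _)
    set F : ℤ → Prop := fun z => ∃ i ∈ range k, z ≡ a i [ZMOD (n i : ℤ)] with hF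
    have hFlim : Tendsto (fun x : ℕ => ls {m : ℕ | F (m : ℤ)} x / Real.log x) atTop (𝓝 (D k)) :=
      ls_per (hP k) (hper le_rfl)
    set N : ℕ := ∏ i ∈ range k, n i with hN
    have hNlim : Tendsto (fun x : ℕ => (N : ℝ) / Real.log x) atTop (𝓝 0) :=
      tendsto_const_nhds.div_atTop log_atTop
    have hF1 := hFlim.eventually_lt_const (show D k < D k + δ / 4 by linarith)
    have hF2 := hFlim.eventually (lt_mem_nhds (show D k - δ / 4 < D k by linarith))
    have hN1 := hNlim.eventually_lt_const (show (0 : ℝ) < δ / 4 by positivity)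
    obtain ⟨N0, hN0⟩ := eventually_atTop.mp
      (hk1.and (hF1.and (hF2.and (hN1.and (log_atTop.eventually_ge_atTop 1)))))
    refine ⟨N0, fun x hx => ?_⟩
    obtain ⟨g1, g2, g3, g4, g5⟩ := hN0 x hx
    have hlog : 0 < Real.log x := by linarith
    rw [div_lt_iff₀ hlog] at g2 g4
    rw [lt_div_iff₀ hlog] at g3
    have e1 : ls B x ≤ ls {m : ℕ | F (m : ℤ)} x + ls (New n a Set.univ k1) x := by
      refine ls_union x fun m _ _ hm => ?_
      by_cases hm2 : m ∈ {m : ℕ | F (m : ℤ)}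
      · exact Or.inl hm2
      · right
        obtain ⟨i, hi, hi2⟩ := hm
        refine ⟨⟨i, Set.mem_univ _, hi, hi2⟩, ?_⟩
        rintro ⟨j, _, hj, hj2⟩
        exact hm2 ⟨j, mem_range.mpr (lt_of_lt_of_le hj (le_max_left _ _)), hj2⟩
    have e2 : ls {m : ℕ | F (m : ℤ)} x ≤ ls B x + ls {m | m < N} x := by
      refine ls_union x fun m _ _ hm => ?_
      obtain ⟨i, hi, hi2⟩ := hm
      by_cases hm2 : n i ≤ m
      · exact Or.inl ⟨i, hm2, hi2⟩
      · right
        have h3 : n i ≤ N := Nat.le_of_dvd (hP k) (dvd_prod_of_mem n hi)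
        change m < N
        omega
    have e3 := ls_small N x
    have e4 := hle k
    rw [Real.dist_eq, abs_lt]
    constructor
    · rw [neg_lt_sub_iff_lt_add, ← sub_lt_iff_lt_add', lt_div_iff₀ hlog]
      nlinarith
    · rw [sub_lt_iff_lt_add', div_lt_iff₀ hlog]
      nlinarith
  refine ⟨1 - Dinf, ?_⟩
  set A : Set ℕ := {m : ℕ | ∀ i, m < n i ∨ ¬ ((m : ℤ) ≡ a i [ZMOD (n i : ℤ)])} with hA
  have hAB : ∀ m, m ∈ A ↔ ¬ m ∈ B := by
    intro m
    rw [hA, hB, Set.mem_ofPred_eq, Set.mem_ofPred_eq]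
    push Not
    refine forall_congr' fun i => ?_
    constructor
    · intro h2 h3
      rcases h2 with h2 | h2
      · omega
      · exact h2
    · intro h2
      by_cases h3 : n i ≤ m
      · exact Or.inr (h2 h3)
      · exact Or.inl (by omega)
  have hall : Tendsto (fun x : ℕ => ls Set.univ x / Real.log x) atTop (𝓝 1) := by
    have h1 := ls_per (L := 1) one_pos (F := fun _ => True) (fun _ _ _ h => h)
    have h2 : dn (fun _ => True) = 1 := by
      rw [dn_eq (L := 1) one_pos (fun _ _ _ h => h), cnt_eq]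
      simp
    rw [h2] at h1
    exact h1
  have hfin := hall.sub hBlim
  refine hfin.congr fun x => ?_
  have h1 : ls A x + ls B x = ls Set.univ x := by
    unfold ls
    rw [← Finset.sum_add_distrib]
    refine Finset.sum_congr rfl fun m _ => ?_
    rw [Set.indicator_univ]
    by_cases h2 : m ∈ B
    · have h3 : m ∉ A := fun h4 => (hAB m).mp h4 h2
      rw [Set.indicator_of_mem h2, Set.indicator_of_notMem h3, zero_add]
    · have h3 : m ∈ A := (hAB m).mpr h2
      rw [Set.indicator_of_notMem h2, Set.indicator_of_mem h3, add_zero]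
  have h2 : ls A x = ls Set.univ x - ls B x := by linarith
  change ls Set.univ x / Real.log x - ls B x / Real.log x = ls A x / Real.log x
  rw [h2, sub_div]

end Pool.Agent.E25C
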