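import Mathlib
import Pool.Agent.E25C.Per

/-!
# Decoupling for two families of classes such that classes which meet have coprime moduli
-/

namespace Pool.Agent.E25C

open Finset

/-- One coordinate. -/
lemma step {A B : Type*} [Fintype A] [Fintype B] (F F' : A → B → Prop) (F0 F0' : B → Prop)
    (h0 : ∀ a b, F0 b → F a b) (h0' : ∀ a b, F0' b → F' a b)
    (hD : ∀ a b, F a b → F' a b → F0 b ∨ F0' b)
    (I1 : ∀ a, cn (fun b => F0 b ∧ F' a b) * Fintype.card B ≤ cn F0 * cn (F' a))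
    (I2 : ∀ a, cn (fun b => F a b ∧ F0' b) * Fintype.card B ≤ cn (F a) * cn F0')
    (I3 : cn (fun b => F0 b ∧ F0' b) * Fintype.card B ≤ cn F0 * cn F0')
    (hA : (∀ a, (∀ b, F a b → F0 b) ∨ (∀ b, F' a b → F0' b)) ∨
      ∃ T : Finset A, 2 * #T ≤ Fintype.card A ∧
        ∀ a, a ∉ T → (∀ b, F a b → F0 b) ∧ (∀ b, F' a b → F0' b)) :
    cn (fun x : A × B => F x.1 x.2 ∧ F' x.1 x.2) * (Fintype.card A * Fintype.card B)
      ≤ cn (fun x : A × B => F x.1 x.2) * cn (fun x : A × B => F' x.1 x.2) := by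
  classical
  rw [cn_prod (fun a b => F a b ∧ F' a b), cn_prod F, cn_prod F']
  set NA : ℝ := (Fintype.card A : ℝ) with hNA
  set NB : ℝ := (Fintype.card B : ℝ) with hNB
  set f : A → ℝ := fun a => (cn (F a) : ℝ) with hf
  set f' : A → ℝ := fun a => (cn (F' a) : ℝ) with hf'
  set f0 : ℝ := (cn F0 : ℝ) with hf0
  set f0' : ℝ := (cn F0' : ℝ) with hf0'
  set X : A → ℝ := fun a => (cn (fun b => F a b ∧ F' a b) : ℝ) with hX
  set P : A → ℝ := fun a => (cn (fun b => F0 b ∧ F' a b) : ℝ) with hP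
  set R : A → ℝ := fun a => (cn (fun b => F a b ∧ F0' b) : ℝ) with hR
  set Y : ℝ := (cn (fun b => F0 b ∧ F0' b) : ℝ) with hY
  have e1 : ∀ a, P a * NB ≤ f0 * f' a := fun a => by
    simp only [hP, hNB, hf0, hf']
    exact_mod_cast I1 a
  have e2 : ∀ a, R a * NB ≤ f a * f0' := fun a => by
    simp only [hR, hNB, hf0', hf]
    exact_mod_cast I2 a
  have e3 : Y * NB ≤ f0 * f0' := by
    simp only [hY, hNB, hf0, hf0']
    exact_mod_cast I3
  have g1 : ∀ a, f0 ≤ f a := fun a => by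
    simp only [hf0, hf]
    exact_mod_cast cn_mono fun b hb => h0 a b hb
  have g2 : ∀ a, f0' ≤ f' a := fun a => by
    simp only [hf0', hf']
    exact_mod_cast cn_mono fun b hb => h0' a b hb
  have z0 : 0 ≤ f0 := by simp only [hf0]; positivity
  have z0' : 0 ≤ f0' := by simp only [hf0']; positivity
  -- the main bound
  have main : (∑ a, X a) * NB ≤ ∑ a, (f0 * f0' + f0 * (f' a - f0') + f0' * (f a - f0)) := by
    rcases hA with hA | ⟨T, hT, hT2⟩
    · rw [Finset.sum_mul]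
      refine Finset.sum_le_sum fun a _ => ?_
      rcases hA a with h | h
      · have h1 : X a = P a := by
          simp only [hX, hP]
          congr 2
          funext b
          exact propext ⟨fun h2 => ⟨h b h2.1, h2.2⟩, fun h2 => ⟨h0 a b h2.1, h2.2⟩⟩
        rw [h1]
        have h2 := g1 a
        have h3 := mul_nonneg z0' (sub_nonneg.mpr h2)
        have h4 := e1 a
        nlinarith
      · have h1 : X a = R a := by
          simp only [hX, hR]
          congr 2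
          funext b
          exact propext ⟨fun h2 => ⟨h2.1, h b h2.2⟩, fun h2 => ⟨h2.1, h0' a b h2.2⟩⟩
        rw [h1]
        have h2 := g2 a
        have h3 := mul_nonneg z0 (sub_nonneg.mpr h2)
        have h4 := e2 a
        nlinarith
    · have hXa : ∀ a, X a + Y = P a + R a := by
        intro a
        simp only [hX, hY, hP, hR]
        have : cn (fun b => F a b ∧ F' a b) + cn (fun b => F0 b ∧ F0' b)
            = cn (fun b => F0 b ∧ F' a b) + cn (fun b => F a b ∧ F0' b) := by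
          rw [cn_eq, cn_eq, cn_eq, cn_eq, Finset.card_filter, Finset.card_filter,
            Finset.card_filter, Finset.card_filter, ← Finset.sum_add_distrib,
            ← Finset.sum_add_distrib]
          refine Finset.sum_congr rfl fun b _ => ?_
          have i1 := h0 a b
          have i2 := h0' a b
          have i3 := hD a b
          by_cases k1 : F0 b <;> by_cases k2 : F0' b <;> by_cases k3 : F a b <;>
            by_cases k4 : F' a b <;> simp_all
        exact_mod_cast this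
      have hXb : ∀ a, a ∉ T → X a = Y := by
        intro a ha
        obtain ⟨h1, h2⟩ := hT2 a ha
        simp only [hX, hY]
        congr 2
        funext b
        exact propext ⟨fun h3 => ⟨h1 b h3.1, h2 b h3.2⟩, fun h3 => ⟨h0 a b h3.1, h0' a b h3.2⟩⟩
      have hfa : ∀ a, a ∉ T → f a = f0 := fun a ha => le_antisymm (by
        simp only [hf, hf0]
        exact_mod_cast cn_mono fun b hb => (hT2 a ha).1 b hb) (g1 a)
      have hfa' : ∀ a, a ∉ T → f' a = f0' := fun a ha => le_antisymm (by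
        simp only [hf', hf0']
        exact_mod_cast cn_mono fun b hb => (hT2 a ha).2 b hb) (g2 a)
      have s1 : ∑ a, X a = ∑ a ∈ T, (P a + R a) + (NA - 2 * (#T : ℝ)) * Y := by
        have t1 : ∑ a, X a = ∑ a ∈ T, X a + ∑ a ∈ Tᶜ, X a := (Finset.sum_add_sum_compl T X).symm
        have t2 : ∑ a ∈ T, X a = ∑ a ∈ T, (P a + R a) - (#T : ℝ) * Y := by
          have : ∀ a ∈ T, X a = (P a + R a) - Y := fun a _ => by
            have := hXa a
            linarith
          rw [Finset.sum_congr rfl this, Finset.sum_sub_distrib, Finset.sum_const, nsmul_eq_mul]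
        have t3 : ∑ a ∈ Tᶜ, X a = (NA - (#T : ℝ)) * Y := by
          rw [Finset.sum_congr rfl fun a ha => hXb a (Finset.mem_compl.mp ha), Finset.sum_const,
            nsmul_eq_mul, Finset.card_compl, Nat.cast_sub (Finset.card_le_univ T)]
        rw [t1, t2, t3]
        ring
      have s2 : ∑ a, (f0 * f0' + f0 * (f' a - f0') + f0' * (f a - f0))
          = ∑ a ∈ T, (f0 * f' a + f a * f0') + (NA - 2 * (#T : ℝ)) * (f0 * f0') := by
        have t1 := (Finset.sum_add_sum_compl T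
          (fun a => f0 * f0' + f0 * (f' a - f0') + f0' * (f a - f0))).symm
        have t2 : ∑ a ∈ T, (f0 * f0' + f0 * (f' a - f0') + f0' * (f a - f0))
            = ∑ a ∈ T, (f0 * f' a + f a * f0') - (#T : ℝ) * (f0 * f0') := by
          have : ∀ a ∈ T, (f0 * f0' + f0 * (f' a - f0') + f0' * (f a - f0))
              = (f0 * f' a + f a * f0') - f0 * f0' := fun a _ => by ring
          rw [Finset.sum_congr rfl this, Finset.sum_sub_distrib, Finset.sum_const, nsmul_eq_mul]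
        have t3 : ∑ a ∈ Tᶜ, (f0 * f0' + f0 * (f' a - f0') + f0' * (f a - f0))
            = (NA - (#T : ℝ)) * (f0 * f0') := by
          have : ∀ a ∈ Tᶜ, (f0 * f0' + f0 * (f' a - f0') + f0' * (f a - f0)) = f0 * f0' := by
            intro a ha
            rw [hfa a (Finset.mem_compl.mp ha), hfa' a (Finset.mem_compl.mp ha)]
            ring
          rw [Finset.sum_congr rfl this, Finset.sum_const,
            nsmul_eq_mul, Finset.card_compl, Nat.cast_sub (Finset.card_le_univ T)]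
        rw [t1, t2, t3]
        ring
      rw [s1, s2, add_mul, Finset.sum_mul]
      have hT' : 0 ≤ NA - 2 * (#T : ℝ) := by
        have : (2 * (#T : ℝ)) ≤ NA := by
          rw [hNA]
          exact_mod_cast hT
        linarith
      refine add_le_add (Finset.sum_le_sum fun a _ => ?_) ?_
      · have h4 := e1 a
        have h5 := e2 a
        nlinarith
      · rw [mul_assoc]
        exact mul_le_mul_of_nonneg_left e3 hT'
  -- conclusion
  set g : ℝ := ∑ a, (f a - f0) with hg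
  set g' : ℝ := ∑ a, (f' a - f0') with hg'
  have k1 : ∑ a, f a = NA * f0 + g := by
    rw [hg, Finset.sum_sub_distrib, Finset.sum_const, nsmul_eq_mul, Finset.card_univ]
    ring
  have k2 : ∑ a, f' a = NA * f0' + g' := by
    rw [hg', Finset.sum_sub_distrib, Finset.sum_const, nsmul_eq_mul, Finset.card_univ]
    ring
  have k3 : ∑ a, (f0 * f0' + f0 * (f' a - f0') + f0' * (f a - f0))
      = NA * (f0 * f0') + f0 * g' + f0' * g := by
    rw [Finset.sum_add_distrib, Finset.sum_add_distrib, Finset.sum_const, nsmul_eq_mul,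
      Finset.card_univ, ← Finset.mul_sum, ← Finset.mul_sum]
  have k4 : 0 ≤ g := Finset.sum_nonneg fun a _ => sub_nonneg.mpr (g1 a)
  have k5 : 0 ≤ g' := Finset.sum_nonneg fun a _ => sub_nonneg.mpr (g2 a)
  have k6 : 0 ≤ NA := by simp only [hNA]; positivity
  rw [k3] at main
  have fin : (∑ a, X a) * (NA * NB) ≤ (∑ a, f a) * ∑ a, f' a := by
    rw [k1, k2]
    have h1 : (∑ a, X a) * (NA * NB) = NA * ((∑ a, X a) * NB) := by ring
    rw [h1]
    have h2 := mul_le_mul_of_nonneg_left main k6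
    nlinarith [mul_nonneg k4 k5]
  have fin2 : (((∑ a, cn (fun b => F a b ∧ F' a b)) * (Fintype.card A * Fintype.card B) : ℕ) : ℝ)
      ≤ (((∑ a, cn (F a)) * ∑ a, cn (F' a) : ℕ) : ℝ) := by
    push_cast
    exact fin
  exact_mod_cast fin2

/-- Counting modulo `a b` through the Chinese remainder theorem. -/
lemma cnt_crt {a b : ℕ} [NeZero a] [NeZero b] (hab : Nat.Coprime a b) {G : ℤ → Prop}
    (hG : Per (a * b) G) :
    cnt (a * b) G = cn (fun x : ZMod a × ZMod b => Sec a b G (x.1.val : ℤ) (x.2.val : ℤ)) := by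
  have hz : NeZero (a * b) := ⟨Nat.mul_ne_zero (NeZero.ne a) (NeZero.ne b)⟩
  rw [cnt_zmod (a * b)]
  refine cn_congr_equiv (ZMod.chineseRemainder hab).toEquiv fun z => ?_
  rw [sec_iff hab hG (w := (z.val : ℤ))]
  · have e1 : ((ZMod.chineseRemainder hab) z).1 = ((z.val : ℕ) : ZMod a) := by
      conv_lhs => rw [← ZMod.natCast_zmod_val z]
      rw [map_natCast, Prod.fst_natCast]
    have e2 : ((ZMod.chineseRemainder hab).toEquiv z).1 = ((z.val : ℕ) : ZMod a) := e1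
    rw [e2, ZMod.val_natCast]
    push_cast
    exact (Int.mod_modEq _ _).symm
  · have e1 : ((ZMod.chineseRemainder hab) z).2 = ((z.val : ℕ) : ZMod b) := by
      conv_lhs => rw [← ZMod.natCast_zmod_val z]
      rw [map_natCast, Prod.snd_natCast]
    have e2 : ((ZMod.chineseRemainder hab).toEquiv z).2 = ((z.val : ℕ) : ZMod b) := e1
    rw [e2, ZMod.val_natCast]
    push_cast
    exact (Int.mod_modEq _ _).symm

/-- Union of the classes `x.2 mod x.1`. -/
def Fam (S : Finset (ℕ × ℤ)) (y : ℤ) : Prop := ∃ x ∈ S, y ≡ x.2 [ZMOD (x.1 : ℤ)]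

lemma Fam_per {S : Finset (ℕ × ℤ)} {L : ℕ} (h : ∀ x ∈ S, x.1 ∣ L) : Per L (Fam S) := by
  rintro y y' hy ⟨x, hx, h2⟩
  exact ⟨x, hx, (hy.of_dvd (by exact_mod_cast h x hx)).trans h2⟩

/-- Classes which meet have coprime moduli. -/
def Cop (S S' : Finset (ℕ × ℤ)) : Prop :=
  ∀ x ∈ S, ∀ x' ∈ S', ∀ y : ℤ, y ≡ x.2 [ZMOD (x.1 : ℤ)] → y ≡ x'.2 [ZMOD (x'.1 : ℤ)] →
    Nat.Coprime x.1 x'.1

/-- Structure at the prime `p`. -/
def Str (p : ℕ) (S S' : Finset (ℕ × ℤ)) : Prop :=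
  (∀ x ∈ S, ∀ x' ∈ S', p ∣ x.1 → p ∣ x'.1 → ∀ y : ℤ,
    y ≡ x.2 [ZMOD ((p ^ x.1.factorization p : ℕ) : ℤ)] →
    ¬ y ≡ x'.2 [ZMOD ((p ^ x'.1.factorization p : ℕ) : ℤ)]) ∨
  ∃ ρ : ℤ, (∀ x ∈ S, p ∣ x.1 → x.2 ≡ ρ [ZMOD (p : ℤ)]) ∧
    (∀ x ∈ S', p ∣ x.1 → x.2 ≡ ρ [ZMOD (p : ℤ)])

open scoped Classical in
/-- Section at `α`. -/
noncomputable def sect (p : ℕ) (α : ℤ) (S : Finset (ℕ × ℤ)) : Finset (ℕ × ℤ) :=
  (S.filter (fun x => α ≡ x.2 [ZMOD ((p ^ x.1.factorization p : ℕ) : ℤ)])).image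
    (fun x => (x.1 / p ^ x.1.factorization p, x.2))

open scoped Classical in
/-- Members whose modulus is not divisible by `p`. -/
noncomputable def sec0 (p : ℕ) (S : Finset (ℕ × ℤ)) : Finset (ℕ × ℤ) :=
  S.filter (fun x => ¬ p ∣ x.1)

lemma mem_sect {p : ℕ} {α : ℤ} {S : Finset (ℕ × ℤ)} {z : ℕ × ℤ} :
    z ∈ sect p α S ↔ ∃ x ∈ S, α ≡ x.2 [ZMOD ((p ^ x.1.factorization p : ℕ) : ℤ)] ∧
      z = (x.1 / p ^ x.1.factorization p, x.2) := by
  unfold sect
  rw [mem_image]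
  constructor
  · rintro ⟨x, hx, h⟩
    rw [mem_filter] at hx
    exact ⟨x, hx.1, hx.2, h.symm⟩
  · rintro ⟨x, hx, h1, h2⟩
    exact ⟨x, by rw [mem_filter]; exact ⟨hx, h1⟩, h2.symm⟩

lemma mem_sec0 {p : ℕ} {S : Finset (ℕ × ℤ)} {z : ℕ × ℤ} :
    z ∈ sec0 p S ↔ z ∈ S ∧ ¬ p ∣ z.1 := by
  unfold sec0
  rw [mem_filter]

lemma card_class {p l : ℕ} (hp : p.Prime) (hl : 0 < l) (ρ : ℤ) [NeZero (p ^ l)] :
    2 * #{a : ZMod (p ^ l) | (a.val : ℤ) ≡ ρ [ZMOD (p : ℤ)]} ≤ Fintype.card (ZMod (p ^ l)) := by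
  classical
  have h1 : #{a : ZMod (p ^ l) | (a.val : ℤ) ≡ ρ [ZMOD (p : ℤ)]}
      = cnt (p ^ l) (fun y => y ≡ ρ [ZMOD (p : ℤ)]) := by
    rw [cnt_zmod (p ^ l), cn_eq]
  obtain ⟨k, rfl⟩ : ∃ k, l = k + 1 := ⟨l - 1, by omega⟩
  have hper : Per p (fun y : ℤ => y ≡ ρ [ZMOD (p : ℤ)]) := fun y y' hy h => hy.trans h
  have h2 : cnt (p ^ (k + 1)) (fun y => y ≡ ρ [ZMOD (p : ℤ)])
      = p ^ k * cnt p (fun y => y ≡ ρ [ZMOD (p : ℤ)]) := by
    rw [pow_succ, mul_comm, cnt_mul hper]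
  have h3 : cnt p (fun y => y ≡ ρ [ZMOD (p : ℤ)]) ≤ 1 := by
    rw [cnt_eq, Finset.card_le_one]
    intro y hy y' hy'
    rw [mem_filter, mem_range] at hy hy'
    have h4 : (y : ℤ) ≡ y' [ZMOD (p : ℤ)] := hy.2.trans hy'.2.symm
    have h5 : y % p = y' % p := Int.natCast_modEq_iff.mp h4
    rwa [Nat.mod_eq_of_lt hy.1, Nat.mod_eq_of_lt hy'.1] at h5
  rw [h1, h2, ZMod.card, pow_succ, mul_comm (p ^ k) p]
  have h4 : p ^ k * cnt p (fun y => y ≡ ρ [ZMOD (p : ℤ)]) ≤ p ^ k * 1 := Nat.mul_le_mul_left _ h3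
  have h5 := hp.two_le
  nlinarith [Nat.zero_le (p ^ k)]

/-- Decoupling of two families of classes. -/
theorem fam (L : ℕ) (hL : 0 < L) : ∀ (S S' : Finset (ℕ × ℤ)) (_ : ∀ x ∈ S, x.1 ∣ L)
    (_ : ∀ x ∈ S', x.1 ∣ L) (_ : Cop S S') (_ : ∀ p, p.Prime → p ∣ L → Str p S S'),
    cnt L (fun y => Fam S y ∧ Fam S' y) * L ≤ cnt L (Fam S) * cnt L (Fam S') := by
  classical
  induction L using Nat.strong_induction_on with
  | _ L ih =>
  intro S S' hS hS' hcop hstr
  rcases Nat.lt_or_ge 1 L with h1 | h1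
  swap
  · have hL1 : L = 1 := by omega
    subst hL1
    rw [cnt_eq, cnt_eq, cnt_eq]
    simp only [Finset.range_one, Finset.filter_singleton, Nat.cast_zero]
    by_cases h2 : Fam S 0 <;> by_cases h3 : Fam S' 0 <;> simp [h2, h3]
  obtain ⟨p, hp, hpL⟩ := Nat.exists_prime_and_dvd (show L ≠ 1 by omega)
  set l : ℕ := L.factorization p with hl
  set a : ℕ := p ^ l with ha
  set b : ℕ := L / a with hb
  have hLab : a * b = L := Nat.ordProj_mul_ordCompl_eq_self L p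
  have hcpb : Nat.Coprime p b := Nat.coprime_ordCompl hp hL.ne'
  have hab : Nat.Coprime a b := Nat.Coprime.pow_left _ hcpb
  have hk : 0 < l := hp.factorization_pos_of_dvd hL.ne' hpL
  have ha1 : 1 < a := Nat.one_lt_pow hk.ne' hp.one_lt
  have hb0 : 0 < b := by
    rcases Nat.eq_zero_or_pos b with h0 | h0
    · rw [h0, mul_zero] at hLab; omega
    · exact h0
  have hbL : b < L := by
    rw [← hLab]
    nlinarith
  have hza : NeZero a := ⟨by omega⟩
  have hzb : NeZero b := ⟨by omega⟩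
  -- facts on a modulus
  have hfac : ∀ x : ℕ × ℤ, x.1 ∣ L → 0 < x.1 ∧ p ^ x.1.factorization p ∣ a ∧
      x.1 / p ^ x.1.factorization p ∣ b ∧
      Nat.Coprime (p ^ x.1.factorization p) (x.1 / p ^ x.1.factorization p) ∧
      p ^ x.1.factorization p * (x.1 / p ^ x.1.factorization p) = x.1 := by
    intro x hx
    have h0 : 0 < x.1 := Nat.pos_of_dvd_of_pos hx hL
    have e1 : x.1.factorization p ≤ l := (Nat.factorization_le_iff_dvd h0.ne' hL.ne').mpr hx p
    have e2 : Nat.Coprime p (x.1 / p ^ x.1.factorization p) := Nat.coprime_ordCompl hp h0.ne'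
    refine ⟨h0, pow_dvd_pow p e1, ?_, Nat.Coprime.pow_left _ e2, Nat.ordProj_mul_ordCompl_eq_self _ _⟩
    have e3 : x.1 / p ^ x.1.factorization p ∣ a * b := by
      rw [hLab]
      exact (Nat.ordCompl_dvd x.1 p).trans hx
    exact (Nat.Coprime.pow_right _ e2.symm).dvd_of_dvd_mul_left e3
  -- sections
  have hsec : ∀ (T : Finset (ℕ × ℤ)), (∀ x ∈ T, x.1 ∣ L) → ∀ α β : ℤ,
      (Sec a b (Fam T) α β ↔ Fam (sect p α T) β) := by
    intro T hT α β
    obtain ⟨w, hw1, hw2⟩ := exists_crt hab α β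
    constructor
    · intro h
      obtain ⟨x, hx, h2⟩ := h w hw1 hw2
      obtain ⟨h0, h3, h4, h5, h6⟩ := hfac x (hT x hx)
      refine ⟨(x.1 / p ^ x.1.factorization p, x.2), mem_sect.mpr ⟨x, hx, ?_, rfl⟩, ?_⟩
      · exact (hw1.of_dvd (by exact_mod_cast h3)).symm.trans
          (h2.of_dvd (by exact_mod_cast Dvd.intro _ h6))
      · exact (hw2.of_dvd (by exact_mod_cast h4)).symm.trans
          (h2.of_dvd (by exact_mod_cast Dvd.intro_left _ h6))
    · rintro ⟨z, hz, h2⟩ w' h7 h8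
      obtain ⟨x, hx, h9, rfl⟩ := mem_sect.mp hz
      obtain ⟨h0, h3, h4, h5, h6⟩ := hfac x (hT x hx)
      refine ⟨x, hx, ?_⟩
      have m1 : w' ≡ x.2 [ZMOD ((p ^ x.1.factorization p : ℕ) : ℤ)] :=
        (h7.of_dvd (by exact_mod_cast h3)).trans h9
      have m2 : w' ≡ x.2 [ZMOD ((x.1 / p ^ x.1.factorization p : ℕ) : ℤ)] :=
        (h8.of_dvd (by exact_mod_cast h4)).trans h2
      have m3 := modEq_mul h5 m1 m2
      rwa [h6] at m3
  have hSand : ∀ α β : ℤ, Sec a b (fun y => Fam S y ∧ Fam S' y) α β ↔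
      (Fam (sect p α S) β ∧ Fam (sect p α S') β) := by
    intro α β
    rw [← hsec S hS, ← hsec S' hS']
    constructor
    · intro h2
      exact ⟨fun w h3 h4 => (h2 w h3 h4).1, fun w h3 h4 => (h2 w h3 h4).2⟩
    · rintro ⟨h2, h3⟩ w h4 h5
      exact ⟨h2 w h4 h5, h3 w h4 h5⟩
  have hperS : Per (a * b) (Fam S) := by rw [hLab]; exact Fam_per hS
  have hperS' : Per (a * b) (Fam S') := by rw [hLab]; exact Fam_per hS'
  have hcnt : ∀ (T : Finset (ℕ × ℤ)), (∀ x ∈ T, x.1 ∣ L) →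
      cnt L (Fam T) = cn (fun x : ZMod a × ZMod b => Fam (sect p (x.1.val : ℤ) T) (x.2.val : ℤ)) := by
    intro T hT
    have h2 : Per (a * b) (Fam T) := by rw [hLab]; exact Fam_per hT
    have h3 := cnt_crt hab h2
    rw [hLab] at h3
    rw [h3]
    refine congrArg cn (funext fun x => propext ?_)
    exact hsec T hT _ _
  have hcnt2 : cnt L (fun y => Fam S y ∧ Fam S' y) = cn (fun x : ZMod a × ZMod b =>
      Fam (sect p (x.1.val : ℤ) S) (x.2.val : ℤ) ∧ Fam (sect p (x.1.val : ℤ) S') (x.2.val : ℤ)) := by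
    have h3 := cnt_crt hab (hperS.and hperS')
    rw [hLab] at h3
    rw [h3]
    refine congrArg cn (funext fun x => propext ?_)
    exact hSand _ _
  rw [hcnt2, hcnt S hS, hcnt S' hS']
  -- inclusion of the sections
  have hinc : ∀ (T : Finset (ℕ × ℤ)) (α β : ℤ), Fam (sec0 p T) β → Fam (sect p α T) β := by
    rintro T α β ⟨x, hx, h2⟩
    rw [mem_sec0] at hx
    have h3 : x.1.factorization p = 0 := Nat.factorization_eq_zero_of_not_dvd hx.2
    refine ⟨x, mem_sect.mpr ⟨x, hx.1, ?_, ?_⟩, h2⟩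
    · rw [h3, pow_zero]
      exact Int.modEq_one
    · rw [h3, pow_zero, Nat.div_one]
  -- divisibility facts for the sections
  have hd0 : ∀ (T : Finset (ℕ × ℤ)), (∀ x ∈ T, x.1 ∣ L) → ∀ x ∈ sec0 p T, x.1 ∣ b := by
    intro T hT x hx
    rw [mem_sec0] at hx
    have h3 : x.1.factorization p = 0 := Nat.factorization_eq_zero_of_not_dvd hx.2
    have h4 := (hfac x (hT x hx.1)).2.2.1
    rwa [h3, pow_zero, Nat.div_one] at h4
  have hd1 : ∀ (T : Finset (ℕ × ℤ)), (∀ x ∈ T, x.1 ∣ L) → ∀ α : ℤ, ∀ x ∈ sect p α T, x.1 ∣ b := by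
    intro T hT α z hz
    obtain ⟨x, hx, _, rfl⟩ := mem_sect.mp hz
    exact (hfac x (hT x hx)).2.2.1
  -- the structure at the other primes
  have hfq : ∀ q, q.Prime → q ∣ b → q ≠ p := by
    rintro q hq hqb rfl
    exact (Nat.Prime.coprime_iff_not_dvd hq).mp hcpb hqb
  have hfq2 : ∀ (q : ℕ) (x : ℕ × ℤ), q.Prime → q ≠ p → x.1 ∣ L →
      (x.1 / p ^ x.1.factorization p).factorization q = x.1.factorization q := by
    intro q x hq hqp hx
    obtain ⟨h0, h3, h4, h5, h6⟩ := hfac x hx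
    have h7 : 0 < x.1 / p ^ x.1.factorization p := Nat.pos_of_dvd_of_pos h4 hb0
    conv_rhs => rw [← h6]
    rw [Nat.factorization_mul (pow_pos hp.pos _).ne' h7.ne']
    simp only [Finsupp.coe_add, Pi.add_apply]
    have : (p ^ x.1.factorization p).factorization q = 0 := by
      rw [hp.factorization_pow, Finsupp.single_apply, if_neg (Ne.symm hqp)]
    omega
  -- a general form of inheritance
  have hin : ∀ (T T' : Finset (ℕ × ℤ)),
      (∀ z ∈ T, ∃ x ∈ S, z.2 = x.2 ∧ z.1 ∣ x.1 ∧ ∀ q, q.Prime → q ≠ p →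
        z.1.factorization q = x.1.factorization q) →
      (∀ z ∈ T', ∃ x ∈ S', z.2 = x.2 ∧ z.1 ∣ x.1 ∧ ∀ q, q.Prime → q ≠ p →
        z.1.factorization q = x.1.factorization q) →
      ∀ q, q.Prime → q ∣ b → Str q T T' := by
    intro T T' hT hT' q hq hqb
    have hqp := hfq q hq hqb
    have hqL : q ∣ L := by rw [← hLab]; exact Dvd.dvd.mul_left hqb a
    rcases hstr q hq hqL with h2 | ⟨ρ, h2, h3⟩
    · left
      intro z hz z' hz' hd hd' y hy
      obtain ⟨x, hx, e1, e2, e3⟩ := hT z hz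
      obtain ⟨x', hx', e1', e2', e3'⟩ := hT' z' hz'
      rw [e3 q hq hqp, e1] at hy
      rw [e3' q hq hqp, e1']
      exact h2 x hx x' hx' (hd.trans e2) (hd'.trans e2') y hy
    · right
      refine ⟨ρ, fun z hz hd => ?_, fun z hz hd => ?_⟩
      · obtain ⟨x, hx, e1, e2, e3⟩ := hT z hz
        rw [e1]
        exact h2 x hx (hd.trans e2)
      · obtain ⟨x, hx, e1, e2, e3⟩ := hT' z hz
        rw [e1]
        exact h3 x hx (hd.trans e2)
  have ho0 : ∀ (T : Finset (ℕ × ℤ)), ∀ z ∈ sec0 p T, ∃ x ∈ T, z.2 = x.2 ∧ z.1 ∣ x.1 ∧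
      ∀ q, q.Prime → q ≠ p → z.1.factorization q = x.1.factorization q := by
    intro T z hz
    rw [mem_sec0] at hz
    exact ⟨z, hz.1, rfl, dvd_rfl, fun _ _ _ => rfl⟩
  have ho1 : ∀ (T : Finset (ℕ × ℤ)), (∀ x ∈ T, x.1 ∣ L) → ∀ α : ℤ, ∀ z ∈ sect p α T,
      ∃ x ∈ T, z.2 = x.2 ∧ z.1 ∣ x.1 ∧
      ∀ q, q.Prime → q ≠ p → z.1.factorization q = x.1.factorization q := by
    intro T hT α z hz
    obtain ⟨x, hx, _, rfl⟩ := mem_sect.mp hz
    exact ⟨x, hx, rfl, Nat.ordCompl_dvd _ _, fun q hq hqp => hfq2 q x hq hqp (hT x hx)⟩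
  -- lifting a point of the section
  have hlift : ∀ (x : ℕ × ℤ) (α β w : ℤ), x.1 ∣ L →
      α ≡ x.2 [ZMOD ((p ^ x.1.factorization p : ℕ) : ℤ)] →
      β ≡ x.2 [ZMOD ((x.1 / p ^ x.1.factorization p : ℕ) : ℤ)] →
      w ≡ α [ZMOD (a : ℤ)] → w ≡ β [ZMOD (b : ℤ)] → w ≡ x.2 [ZMOD (x.1 : ℤ)] := by
    intro x α β w hx h2 h7 h8 h9
    obtain ⟨h0, h3, h4, h5, h6⟩ := hfac x hx
    have m1 : w ≡ x.2 [ZMOD ((p ^ x.1.factorization p : ℕ) : ℤ)] :=
      (h8.of_dvd (by exact_mod_cast h3)).trans h2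
    have m2 : w ≡ x.2 [ZMOD ((x.1 / p ^ x.1.factorization p : ℕ) : ℤ)] :=
      (h9.of_dvd (by exact_mod_cast h4)).trans h7
    have m3 := modEq_mul h5 m1 m2
    rwa [h6] at m3
  have hlift0 : ∀ (x : ℕ × ℤ) (β w : ℤ), x.1 ∣ b → β ≡ x.2 [ZMOD (x.1 : ℤ)] →
      w ≡ β [ZMOD (b : ℤ)] → w ≡ x.2 [ZMOD (x.1 : ℤ)] := by
    intro x β w hx h2 h3
    exact (h3.of_dvd (by exact_mod_cast hx)).trans h2
  -- the three instances of the induction hypothesis
  have J : ∀ (T T' : Finset (ℕ × ℤ)), (∀ x ∈ T, x.1 ∣ b) → (∀ x ∈ T', x.1 ∣ b) → Cop T T' →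
      (∀ q, q.Prime → q ∣ b → Str q T T') →
      cn (fun β : ZMod b => Fam T (β.val : ℤ) ∧ Fam T' (β.val : ℤ)) * Fintype.card (ZMod b)
        ≤ cn (fun β : ZMod b => Fam T (β.val : ℤ)) * cn (fun β : ZMod b => Fam T' (β.val : ℤ)) := by
    intro T T' g1 g2 g3 g4
    have h3 := ih b hbL hb0 T T' g1 g2 g3 g4
    rw [cnt_zmod b, cnt_zmod b, cnt_zmod b] at h3
    rw [ZMod.card]
    exact h3
  have h2 := step (A := ZMod a) (B := ZMod b)
    (fun α β => Fam (sect p (α.val : ℤ) S) (β.val : ℤ))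
    (fun α β => Fam (sect p (α.val : ℤ) S') (β.val : ℤ))
    (fun β => Fam (sec0 p S) (β.val : ℤ)) (fun β => Fam (sec0 p S') (β.val : ℤ))
    (fun α β => hinc S _ _) (fun α β => hinc S' _ _) ?_ ?_ ?_ ?_ ?_
  · rw [ZMod.card, ZMod.card, hLab] at h2
    exact h2
  · -- classes which meet have coprime moduli
    rintro α β ⟨z, hz, hz2⟩ ⟨z', hz', hz2'⟩
    obtain ⟨x, hx, e1, rfl⟩ := mem_sect.mp hz
    obtain ⟨x', hx', e1', rfl⟩ := mem_sect.mp hz'
    obtain ⟨w, hw1, hw2⟩ := exists_crt hab (α.val : ℤ) (β.val : ℤ)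
    have hco := hcop x hx x' hx' w (hlift x _ _ w (hS x hx) e1 hz2 hw1 hw2)
      (hlift x' _ _ w (hS' x' hx') e1' hz2' hw1 hw2)
    by_cases hpx : p ∣ x.1
    · have hpx' : ¬ p ∣ x'.1 := fun h3 =>
        hp.one_lt.ne' (Nat.eq_one_of_dvd_coprimes hco hpx h3)
      right
      have h3 : x'.1.factorization p = 0 := Nat.factorization_eq_zero_of_not_dvd hpx'
      refine ⟨x', mem_sec0.mpr ⟨hx', hpx'⟩, ?_⟩
      simp only [h3, pow_zero, Nat.div_one] at hz2'
      exact hz2'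
    · left
      have h3 : x.1.factorization p = 0 := Nat.factorization_eq_zero_of_not_dvd hpx
      refine ⟨x, mem_sec0.mpr ⟨hx, hpx⟩, ?_⟩
      simp only [h3, pow_zero, Nat.div_one] at hz2
      exact hz2
  · intro α
    refine J _ _ (hd0 S hS) (hd1 S' hS' _) ?_ (hin _ _ (ho0 S) (ho1 S' hS' _))
    intro x hx z' hz' β k1 k2
    obtain ⟨x', hx', e1', rfl⟩ := mem_sect.mp hz'
    have hxb := hd0 S hS x hx
    rw [mem_sec0] at hx
    obtain ⟨w, hw1, hw2⟩ := exists_crt hab (α.val : ℤ) β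
    have hco := hcop x hx.1 x' hx' w (hlift0 x β w hxb k1 hw2)
      (hlift x' _ _ w (hS' x' hx') e1' k2 hw1 hw2)
    exact Nat.Coprime.coprime_dvd_right (Nat.ordCompl_dvd _ _) hco
  · intro α
    refine J _ _ (hd1 S hS _) (hd0 S' hS') ?_ (hin _ _ (ho1 S hS _) (ho0 S'))
    intro z hz x' hx' β k1 k2
    obtain ⟨x, hx, e1, rfl⟩ := mem_sect.mp hz
    have hxb := hd0 S' hS' x' hx'
    rw [mem_sec0] at hx'
    obtain ⟨w, hw1, hw2⟩ := exists_crt hab (α.val : ℤ) β
    have hco := hcop x hx x' hx'.1 w (hlift x _ _ w (hS x hx) e1 k1 hw1 hw2)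
      (hlift0 x' β w hxb k2 hw2)
    exact Nat.Coprime.coprime_dvd_left (Nat.ordCompl_dvd _ _) hco
  · refine J _ _ (hd0 S hS) (hd0 S' hS') ?_ (hin _ _ (ho0 S) (ho0 S'))
    intro x hx x' hx' β k1 k2
    rw [mem_sec0] at hx hx'
    exact hcop x hx.1 x' hx'.1 β k1 k2
  · -- the structure at `p`
    have hno : ∀ (T : Finset (ℕ × ℤ)) (α : ZMod a),
        (∀ x ∈ T, p ∣ x.1 → ¬ (α.val : ℤ) ≡ x.2 [ZMOD ((p ^ x.1.factorization p : ℕ) : ℤ)]) →
        ∀ β : ZMod b, Fam (sect p (α.val : ℤ) T) (β.val : ℤ) → Fam (sec0 p T) (β.val : ℤ) := by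
      rintro T α hT β ⟨z, hz, hz2⟩
      obtain ⟨x, hx, e1, rfl⟩ := mem_sect.mp hz
      have hpx : ¬ p ∣ x.1 := fun h3 => hT x hx h3 e1
      have h3 : x.1.factorization p = 0 := Nat.factorization_eq_zero_of_not_dvd hpx
      refine ⟨x, mem_sec0.mpr ⟨hx, hpx⟩, ?_⟩
      simp only [h3, pow_zero, Nat.div_one] at hz2
      exact hz2
    rcases hstr p hp hpL with h2 | ⟨ρ, h2, h3⟩
    · left
      intro α
      by_cases hex : ∃ x ∈ S, p ∣ x.1 ∧ (α.val : ℤ) ≡ x.2 [ZMOD ((p ^ x.1.factorization p : ℕ) : ℤ)]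
      · right
        obtain ⟨x, hx, hpx, e1⟩ := hex
        exact hno S' α fun x' hx' hpx' => h2 x hx x' hx' hpx hpx' _ e1
      · left
        exact hno S α fun x hx hpx e1 => hex ⟨x, hx, hpx, e1⟩
    · right
      refine ⟨Finset.univ.filter (fun α : ZMod a => (α.val : ℤ) ≡ ρ [ZMOD (p : ℤ)]),
        card_class hp hk ρ, ?_⟩
      intro α hα
      rw [mem_filter, not_and] at hα
      have hα' := hα (mem_univ α)
      have hgen : ∀ (T : Finset (ℕ × ℤ)), (∀ x ∈ T, x.1 ∣ L) →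
          (∀ x ∈ T, p ∣ x.1 → x.2 ≡ ρ [ZMOD (p : ℤ)]) →
          ∀ x ∈ T, p ∣ x.1 → ¬ (α.val : ℤ) ≡ x.2 [ZMOD ((p ^ x.1.factorization p : ℕ) : ℤ)] := by
        intro T hT h4 x hx hpx e1
        have h0 := (hfac x (hT x hx)).1
        have h5 : 0 < x.1.factorization p := hp.factorization_pos_of_dvd h0.ne' hpx
        have h6 : p ∣ p ^ x.1.factorization p := dvd_pow_self p h5.ne'
        exact hα' ((e1.of_dvd (by exact_mod_cast h6)).trans (h4 x hx hpx))
      exact ⟨hno S α (hgen S hS h2), hno S' α (hgen S' hS' h3)⟩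

end Pool.Agent.E25C
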