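import Mathlib
import Pool.Agent.E25C.Pack
import Pool.Agent.E25C.Fam

/-!
# Decoupling of two centres when classes that meet have moduli with bounded gcd
-/

namespace Pool.Agent.E25C

open Finset

variable {n : ℕ → ℕ} {a : ℕ → ℤ} {Q : ℕ} {h : ℤ}

lemma pow_dvd_of_dvd_div {N Q p : ℕ} (hN : 0 < N) (hQ : 0 < Q) (hp : p.Prime)
    (hd : p ∣ N / Nat.gcd N Q) : p ^ (Q.factorization p + 1) ∣ N := by
  have hg : 0 < Nat.gcd N Q := Nat.gcd_pos_of_pos_left _ hN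
  obtain ⟨m, hm⟩ := Nat.gcd_dvd_left N Q
  obtain ⟨k, hk⟩ := Nat.gcd_dvd_right N Q
  have h1 : N / Nat.gcd N Q = m := Nat.div_eq_of_eq_mul_right hg hm
  have h2 : Q / Nat.gcd N Q = k := Nat.div_eq_of_eq_mul_right hg hk
  have hco : Nat.Coprime m k := by
    rw [← h1, ← h2]
    exact Nat.coprime_div_gcd_div_gcd hg
  rw [h1] at hd
  have hpk : ¬ p ∣ k := fun h3 => hp.one_lt.ne' (Nat.eq_one_of_dvd_coprimes hco hd h3)
  have hk0 : k ≠ 0 := by
    rintro rfl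
    rw [mul_zero] at hk
    omega
  have h3 : Q.factorization p = (Nat.gcd N Q).factorization p := by
    conv_lhs => rw [hk]
    rw [Nat.factorization_mul hg.ne' hk0]
    simp only [Finsupp.coe_add, Pi.add_apply]
    rw [Nat.factorization_eq_zero_of_not_dvd hpk, add_zero]
  rw [h3, pow_succ]
  conv_rhs => rw [hm]
  exact mul_dvd_mul (Nat.ordProj_dvd _ _) hd

lemma cancel_modEq {N : ℕ} (hN : 0 < N) (z z' : ℤ) :
    (Q : ℤ) * z ≡ Q * z' [ZMOD (N : ℤ)] ↔ z ≡ z' [ZMOD ((N / Nat.gcd N Q : ℕ) : ℤ)] := by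
  have hg : 0 < Nat.gcd N Q := Nat.gcd_pos_of_pos_left _ hN
  constructor
  · intro h1
    have h2 := Int.ModEq.cancel_left_div_gcd (by exact_mod_cast hN : (0 : ℤ) < (N : ℤ)) h1
    have h3 : ((N : ℤ) / (Int.gcd (N : ℤ) (Q : ℤ) : ℤ)) = ((N / Nat.gcd N Q : ℕ) : ℤ) := by
      rw [Int.gcd_natCast_natCast]
      push_cast
      rfl
    rw [h3] at h2
    exact h2
  · intro h1
    have h2 : (Q : ℤ) * z ≡ Q * z' [ZMOD ((Q : ℤ) * ((N / Nat.gcd N Q : ℕ) : ℤ))] := h1.mul_left'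
    refine h2.of_dvd ?_
    have h3 : N ∣ Q * (N / Nat.gcd N Q) := by
      obtain ⟨m, hm⟩ := Nat.gcd_dvd_left N Q
      obtain ⟨k, hk⟩ := Nat.gcd_dvd_right N Q
      have h4 : N / Nat.gcd N Q = m := Nat.div_eq_of_eq_mul_right hg hm
      rw [h4]
      refine ⟨k, ?_⟩
      calc Q * m = (Nat.gcd N Q * k) * m := by rw [← hk]
        _ = (Nat.gcd N Q * m) * k := by ring
        _ = N * k := by rw [← hm]
    exact_mod_cast h3

open scoped Classical in
/-- The classes of `S` in the variable `z`. -/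
noncomputable def famOf (n : ℕ → ℕ) (a : ℕ → ℤ) (Q : ℕ) (h : ℤ) (S : Finset ℕ) : Finset (ℕ × ℤ) :=
  (S.filter (fun i => ∃ z : ℤ, h + Q * z ≡ a i [ZMOD (n i : ℤ)])).image
    (fun i => (n i / Nat.gcd (n i) Q,
      if hz : ∃ z : ℤ, h + Q * z ≡ a i [ZMOD (n i : ℤ)] then hz.choose else 0))

lemma mem_famOf {S : Finset ℕ} {x : ℕ × ℤ} (hx : x ∈ famOf n a Q h S) :
    ∃ i ∈ S, x.1 = n i / Nat.gcd (n i) Q ∧ h + Q * x.2 ≡ a i [ZMOD (n i : ℤ)] := by
  classical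
  unfold famOf at hx
  rw [mem_image] at hx
  obtain ⟨i, hi, rfl⟩ := hx
  rw [mem_filter] at hi
  refine ⟨i, hi.1, rfl, ?_⟩
  simp only
  rw [dif_pos hi.2]
  exact hi.2.choose_spec

lemma famOf_iff (hpos : ∀ i, 0 < n i) {S : Finset ℕ} (z : ℤ) :
    HS n a Q h S z ↔ Fam (famOf n a Q h S) z := by
  classical
  constructor
  · rintro ⟨i, hi, h1⟩
    have hz : ∃ z : ℤ, h + Q * z ≡ a i [ZMOD (n i : ℤ)] := ⟨z, h1⟩
    refine ⟨(n i / Nat.gcd (n i) Q, hz.choose), ?_, ?_⟩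
    · unfold famOf
      rw [mem_image]
      refine ⟨i, by rw [mem_filter]; exact ⟨hi, hz⟩, ?_⟩
      rw [dif_pos hz]
    · refine (cancel_modEq (hpos i) z hz.choose).mp ?_
      have h2 := h1.trans hz.choose_spec.symm
      exact Int.ModEq.add_left_cancel' h h2
  · rintro ⟨x, hx, h1⟩
    obtain ⟨i, hi, e1, e2⟩ := mem_famOf hx
    rw [e1] at h1
    have h2 := (cancel_modEq (hpos i) z x.2).mpr h1
    exact ⟨i, hi, (h2.add_left h).trans e2⟩

/-- Two different centres are decoupled in a residue class modulo `Q`. -/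
theorem sep2 (hpos : ∀ i, 0 < n i) {W : ℕ} (hQ : 0 < Q) {u u' : ℤ}
    {S S' : Finset ℕ} (hu : ∀ i ∈ S, (n i : ℤ) ∣ W * a i - u) (hu' : ∀ i ∈ S', (n i : ℤ) ∣ W * a i - u')
    (hG : ∀ i ∈ S, ∀ j ∈ S', (∃ y : ℤ, y ≡ a i [ZMOD (n i : ℤ)] ∧ y ≡ a j [ZMOD (n j : ℤ)]) →
      Nat.gcd (n i) (n j) ∣ Q)
    (hWp : ∀ p, p.Prime → p ∣ W → ∀ i ∈ S, ∀ j ∈ S',
      ¬ p ^ (Q.factorization p + 1) ∣ Int.gcd ((Nat.gcd (n i) (n j) : ℕ) : ℤ) (u - u')) :
    dn (fun z => HS n a Q h S z ∧ HS n a Q h S' z) ≤ dn (HS n a Q h S) * dn (HS n a Q h S') := by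
  classical
  set T : Finset (ℕ × ℤ) := famOf n a Q h S with hT
  set T' : Finset (ℕ × ℤ) := famOf n a Q h S' with hT'
  have e1 : HS n a Q h S = Fam T := funext fun z => propext (famOf_iff hpos z)
  have e2 : HS n a Q h S' = Fam T' := funext fun z => propext (famOf_iff hpos z)
  rw [e1, e2]
  set L : ℕ := ∏ i ∈ S ∪ S', n i with hL
  have hL0 : 0 < L := prod_pos fun i _ => hpos i
  have hTL : ∀ x ∈ T, x.1 ∣ L := by
    intro x hx
    obtain ⟨i, hi, h1, _⟩ := mem_famOf hx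
    rw [h1]
    exact (Nat.div_dvd_of_dvd (Nat.gcd_dvd_left _ _)).trans
      (dvd_prod_of_mem n (mem_union_left _ hi))
  have hTL' : ∀ x ∈ T', x.1 ∣ L := by
    intro x hx
    obtain ⟨i, hi, h1, _⟩ := mem_famOf hx
    rw [h1]
    exact (Nat.div_dvd_of_dvd (Nat.gcd_dvd_left _ _)).trans
      (dvd_prod_of_mem n (mem_union_right _ hi))
  have hcop : Cop T T' := by
    intro x hx x' hx' z hz hz'
    obtain ⟨i, hi, h1, h2⟩ := mem_famOf hx
    obtain ⟨j, hj, h1', h2'⟩ := mem_famOf hx'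
    rw [h1] at hz
    rw [h1'] at hz'
    have h3 := ((cancel_modEq (hpos i) z x.2).mpr hz).add_left h
    have h3' := ((cancel_modEq (hpos j) z x'.2).mpr hz').add_left h
    have h4 := hG i hi j hj ⟨h + Q * z, h3.trans h2, h3'.trans h2'⟩
    rw [h1, h1']
    refine Nat.coprime_of_dvd fun p hp hd hd' => ?_
    have h5 := pow_dvd_of_dvd_div (hpos i) hQ hp hd
    have h6 := pow_dvd_of_dvd_div (hpos j) hQ hp hd'
    exact Nat.pow_succ_factorization_not_dvd hQ.ne' hp ((Nat.dvd_gcd h5 h6).trans h4)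
  -- the value of `W y - u` at a member
  have hval : ∀ (R : Finset ℕ) (w : ℤ), (∀ i ∈ R, (n i : ℤ) ∣ W * a i - w) →
      ∀ x ∈ famOf n a Q h R, ∃ i ∈ R, x.1 = n i / Nat.gcd (n i) Q ∧
        (n i : ℤ) ∣ W * (h + Q * x.2) - w := by
    intro R w hw x hx
    obtain ⟨i, hi, h1, h2⟩ := mem_famOf hx
    refine ⟨i, hi, h1, ?_⟩
    have h6 : (n i : ℤ) ∣ (W : ℤ) * ((h + Q * x.2) - a i) := Dvd.dvd.mul_left (h2.symm.dvd) _
    have h7 := dvd_add h6 (hw i hi)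
    have h8 : (W : ℤ) * ((h + Q * x.2) - a i) + (W * a i - w) = W * (h + Q * x.2) - w := by ring
    rwa [h8] at h7
  have hstr : ∀ p, p.Prime → p ∣ L → Str p T T' := by
    intro p hp _
    set q : ℕ := Q.factorization p with hq
    have hqQ : (p ^ q : ℕ) ∣ Q := Nat.ordProj_dvd Q p
    have hv1 : ∀ (N : ℕ), p ∣ N → 0 < N → p ∣ p ^ N.factorization p := fun N hd h0 =>
      dvd_pow_self p (hp.factorization_pos_of_dvd h0.ne' hd).ne'
    have hTpos : ∀ x ∈ T, 0 < x.1 := fun x hx => Nat.pos_of_dvd_of_pos (hTL x hx) hL0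
    have hTpos' : ∀ x ∈ T', 0 < x.1 := fun x hx => Nat.pos_of_dvd_of_pos (hTL' x hx) hL0
    by_cases hpW : p ∣ W
    · left
      intro x hx x' hx' hpx hpx' y hy hy'
      obtain ⟨i, hi, h1, h2⟩ := hval S u hu x hx
      obtain ⟨j, hj, h1', h2'⟩ := hval S' u' hu' x' hx'
      have hpi : p ^ (q + 1) ∣ n i := pow_dvd_of_dvd_div (hpos i) hQ hp (by rw [← h1]; exact hpx)
      have hpj : p ^ (q + 1) ∣ n j := pow_dvd_of_dvd_div (hpos j) hQ hp (by rw [← h1']; exact hpx')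
      have key : ∀ (w zz : ℤ), ((p ^ (q + 1) : ℕ) : ℤ) ∣ W * (h + Q * zz) - w →
          y ≡ zz [ZMOD (p : ℤ)] → ((p ^ (q + 1) : ℕ) : ℤ) ∣ W * (h + Q * y) - w := by
        intro w zz k1 k2
        have k3 : ((p ^ (q + 1) : ℕ) : ℤ) ∣ (Q : ℤ) * (y - zz) := by
          rw [pow_succ]
          push_cast
          exact mul_dvd_mul (by exact_mod_cast hqQ) k2.symm.dvd
        have k4 : (W : ℤ) * (h + Q * y) - w = (W * (h + Q * zz) - w) + W * (Q * (y - zz)) := by ring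
        rw [k4]
        exact dvd_add k1 (Dvd.dvd.mul_left k3 _)
      have m1 := key u x.2 ((by exact_mod_cast hpi : ((p ^ (q + 1) : ℕ) : ℤ) ∣ (n i : ℤ)).trans h2)
        (hy.of_dvd (by exact_mod_cast hv1 x.1 hpx (hTpos x hx)))
      have m2 := key u' x'.2 ((by exact_mod_cast hpj : ((p ^ (q + 1) : ℕ) : ℤ) ∣ (n j : ℤ)).trans h2')
        (hy'.of_dvd (by exact_mod_cast hv1 x'.1 hpx' (hTpos' x' hx')))
      refine hWp p hp hpW i hi j hj ?_
      have h5 : ((p ^ (q + 1) : ℕ) : ℤ) ∣ u - u' := by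
        have h6 := dvd_sub m2 m1
        have h7 : ((W : ℤ) * (h + Q * y) - u') - (W * (h + Q * y) - u) = u - u' := by ring
        rwa [h7] at h6
      have h6 : p ^ (q + 1) ∣ Nat.gcd (n i) (n j) := Nat.dvd_gcd hpi hpj
      have h7 : ((p ^ (q + 1) : ℕ) : ℤ) ∣ ((Int.gcd ((Nat.gcd (n i) (n j) : ℕ) : ℤ) (u - u') : ℕ) : ℤ) :=
        Int.dvd_coe_gcd (by exact_mod_cast h6) h5
      exact_mod_cast h7
    · -- residues modulo `p` agree inside one family
      have hsame : ∀ (R : Finset ℕ) (w : ℤ), (∀ i ∈ R, (n i : ℤ) ∣ W * a i - w) →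
          ∀ x ∈ famOf n a Q h R, ∀ x' ∈ famOf n a Q h R, p ∣ x.1 → p ∣ x'.1 →
          x.2 ≡ x'.2 [ZMOD (p : ℤ)] := by
        intro R w hw x hx x' hx' hpx hpx'
        obtain ⟨i, hi, h1, h2⟩ := hval R w hw x hx
        obtain ⟨j, hj, h1', h2'⟩ := hval R w hw x' hx'
        have hpi : p ^ (q + 1) ∣ n i := pow_dvd_of_dvd_div (hpos i) hQ hp (by rw [← h1]; exact hpx)
        have hpj : p ^ (q + 1) ∣ n j := pow_dvd_of_dvd_div (hpos j) hQ hp (by rw [← h1']; exact hpx')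
        have m1 := (by exact_mod_cast hpi : ((p ^ (q + 1) : ℕ) : ℤ) ∣ (n i : ℤ)).trans h2
        have m2 := (by exact_mod_cast hpj : ((p ^ (q + 1) : ℕ) : ℤ) ∣ (n j : ℤ)).trans h2'
        have m3 : ((p ^ (q + 1) : ℕ) : ℤ) ∣ (Q : ℤ) * (W * (x'.2 - x.2)) := by
          have h6 := dvd_sub m2 m1
          have h7 : ((W : ℤ) * (h + Q * x'.2) - w) - (W * (h + Q * x.2) - w)
              = (Q : ℤ) * (W * (x'.2 - x.2)) := by ring
          rwa [h7] at h6
        -- cancel the power of `p` in `Q`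
        obtain ⟨k, hk⟩ := hqQ
        have hpk : ¬ p ∣ k := by
          intro h3
          refine Nat.pow_succ_factorization_not_dvd hQ.ne' hp ?_
          rw [← hq, pow_succ]
          conv_rhs => rw [hk]
          exact mul_dvd_mul dvd_rfl h3
        have m4 : (p : ℤ) ∣ (k : ℤ) * (W * (x'.2 - x.2)) := by
          have h3 : ((p ^ q : ℕ) : ℤ) * (p : ℤ) ∣ ((p ^ q : ℕ) : ℤ) * ((k : ℤ) * (W * (x'.2 - x.2))) := by
            have h4 : ((p ^ q : ℕ) : ℤ) * (p : ℤ) = ((p ^ (q + 1) : ℕ) : ℤ) := by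
              rw [pow_succ]; push_cast; ring
            have h5 : ((p ^ q : ℕ) : ℤ) * ((k : ℤ) * (W * (x'.2 - x.2))) = (Q : ℤ) * (W * (x'.2 - x.2)) := by
              have : (Q : ℤ) = ((p ^ q : ℕ) : ℤ) * (k : ℤ) := by exact_mod_cast hk
              rw [this]; ring
            rw [h4, h5]
            exact m3
          have h6 : ((p ^ q : ℕ) : ℤ) ≠ 0 := by exact_mod_cast (pow_pos hp.pos q).ne'
          exact (mul_dvd_mul_iff_left h6).mp h3
        have hpp : Prime (p : ℤ) := Nat.prime_iff_prime_int.mp hp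
        rcases hpp.dvd_or_dvd m4 with h3 | h3
        · exact absurd (by exact_mod_cast h3) hpk
        · rcases hpp.dvd_or_dvd h3 with h4 | h4
          · exact absurd (by exact_mod_cast h4) hpW
          · exact Int.modEq_iff_dvd.mpr h4
      by_cases hex : ∃ x ∈ T, ∃ x' ∈ T', p ∣ x.1 ∧ p ∣ x'.1 ∧ x.2 ≡ x'.2 [ZMOD (p : ℤ)]
      · right
        obtain ⟨x0, hx0, x0', hx0', h1, h1', h2⟩ := hex
        refine ⟨x0.2, fun x hx hpx => hsame S u hu x hx x0 hx0 hpx h1, fun x' hx' hpx' => ?_⟩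
        exact (hsame S' u' hu' x' hx' x0' hx0' hpx' h1').trans h2.symm
      · left
        intro x hx x' hx' hpx hpx' y hy hy'
        refine hex ⟨x, hx, x', hx', hpx, hpx', ?_⟩
        exact (hy.of_dvd (by exact_mod_cast hv1 x.1 hpx (hTpos x hx))).symm.trans
          (hy'.of_dvd (by exact_mod_cast hv1 x'.1 hpx' (hTpos' x' hx')))
  have h1 := fam L hL0 T T' hTL hTL' hcop hstr
  rw [dn_eq hL0 ((Fam_per hTL).and (Fam_per hTL')), dn_eq hL0 (Fam_per hTL), dn_eq hL0 (Fam_per hTL')]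
  have hL' : (0 : ℝ) < L := by exact_mod_cast hL0
  rw [div_mul_div_comm, div_le_div_iff₀ hL' (by positivity)]
  have h2 : (cnt L (fun y => Fam T y ∧ Fam T' y) : ℝ) * L ≤ cnt L (Fam T) * cnt L (Fam T') := by
    exact_mod_cast h1
  nlinarith

end Pool.Agent.E25C
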