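import Mathlib
import Pool.Agent.E25C.Approx
import Pool.Agent.E25C.Sep

/-!
# Classes whose residues are bounded rational multiples of the moduli plus separated centres
-/

namespace Pool.Agent.E25C

open Finset Filter Topology
open scoped Classical

variable {n : ℕ → ℕ} {a : ℕ → ℤ}

/-- Indices below `k` in `Y` with centre `r`. -/
noncomputable def Sk (Y : Set ℕ) (u : ℕ → ℤ) (k : ℕ) (r : ℤ) : Finset ℕ :=
  (range k).filter (fun i => i ∈ Y ∧ u i = r)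

lemma mem_Sk {Y : Set ℕ} {u : ℕ → ℤ} {k : ℕ} {r : ℤ} {i : ℕ} :
    i ∈ Sk Y u k r ↔ i < k ∧ i ∈ Y ∧ u i = r := by
  unfold Sk
  rw [mem_filter, mem_range]

lemma Sk_mono {Y : Set ℕ} {u : ℕ → ℤ} {k k' : ℕ} (h : k ≤ k') (r : ℤ) :
    Sk Y u k r ⊆ Sk Y u k' r := by
  intro i hi
  rw [mem_Sk] at hi ⊢
  exact ⟨by omega, hi.2⟩

/-- The centres of the indices below `k`. -/
noncomputable def Rk (Y : Set ℕ) (u : ℕ → ℤ) (k : ℕ) : Finset ℤ :=
  ((range k).filter (fun i => i ∈ Y)).image u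

lemma mem_Rk {Y : Set ℕ} {u : ℕ → ℤ} {k : ℕ} {r : ℤ} :
    r ∈ Rk Y u k ↔ ∃ i, i < k ∧ i ∈ Y ∧ u i = r := by
  unfold Rk
  rw [mem_image]
  constructor
  · rintro ⟨i, hi, h⟩
    rw [mem_filter, mem_range] at hi
    exact ⟨i, hi.1, hi.2, h⟩
  · rintro ⟨i, hi, hi2, h⟩
    exact ⟨i, by rw [mem_filter, mem_range]; exact ⟨hi, hi2⟩, h⟩

lemma Rk_mono {Y : Set ℕ} {u : ℕ → ℤ} {k k' : ℕ} (h : k ≤ k') : Rk Y u k ⊆ Rk Y u k' := by
  intro r hr
  rw [mem_Rk] at hr ⊢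
  obtain ⟨i, hi, h2⟩ := hr
  exact ⟨i, by omega, h2⟩

/-- The total density of the centres. -/
noncomputable def sig (n : ℕ → ℕ) (a : ℕ → ℤ) (Y : Set ℕ) (u : ℕ → ℤ) (Q : ℕ) (h : ℤ) (k : ℕ) : ℝ :=
  ∑ r ∈ Rk Y u k, dn (HS n a Q h (Sk Y u k r))

lemma sig_eq {Y : Set ℕ} {u : ℕ → ℤ} {Q : ℕ} {h : ℤ} {k : ℕ} {R : Finset ℤ} (hR : Rk Y u k ⊆ R) :
    sig n a Y u Q h k = ∑ r ∈ R, dn (HS n a Q h (Sk Y u k r)) := by
  unfold sig
  refine Finset.sum_subset hR fun r _ hr => ?_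
  have : Sk Y u k r = ∅ := by
    rw [Finset.eq_empty_iff_forall_notMem]
    intro i hi
    rw [mem_Sk] at hi
    exact hr (mem_Rk.mpr ⟨i, hi⟩)
  rw [this, dn_HS_empty]

lemma sig_mono (hpos : ∀ i, 0 < n i) {Y : Set ℕ} {u : ℕ → ℤ} {Q : ℕ} {h : ℤ} :
    Monotone (sig n a Y u Q h) := by
  intro k k' hk
  rw [sig_eq (Rk_mono hk), sig_eq (Subset.refl (Rk Y u k'))]
  exact Finset.sum_le_sum fun r _ => dn_HS_mono hpos (Sk_mono hk r)

/-- One residue class modulo `Q`, when the total density of the centres has almost converged. -/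
lemma class_bound (hmono : StrictMono n) (hpos : ∀ i, 0 < n i) {Y : Set ℕ} {W K : ℕ} (hW : 0 < W)
    {u : ℕ → ℤ} (hdiv : ∀ i ∈ Y, (n i : ℤ) ∣ W * a i - u i)
    (hlo : ∀ i ∈ Y, -((K : ℤ) * n i) ≤ u i) (hhi : ∀ i ∈ Y, u i < (W : ℤ) * n i)
    {Q : ℕ} {h : ℤ} {c : ℝ} (hc : 0 < c)
    (hmert : ∀ X M : ℕ, 2 ≤ X → c / Real.log X ≤ ((PP X M).totient : ℝ) / PP X M)
    {k0 : ℕ} {δ : ℝ} (hk : ∀ k, k0 ≤ k → sig n a Y u Q h k - sig n a Y u Q h k0 ≤ δ)
    {x : ℕ} (hx : 2 ≤ (W + K) * x) (hX : ∀ i, i < k0 → n i ≤ (W + K) * x) :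
    ls (New n a Y k0 ∩ {m | (Q : ℤ) ∣ (m : ℤ) - h}) x
      ≤ ((W + K : ℕ) : ℝ) * (Real.log (((W + K) * x : ℕ) : ℝ) / c) * δ := by
  set X : ℕ := (W + K) * x with hXdef
  set k : ℕ := max (x + 1) k0 with hkdef
  have hk0k : k0 ≤ k := le_max_right _ _
  have hX2 : (2 : ℝ) ≤ X := by exact_mod_cast hx
  have hlogX : 0 < Real.log X := Real.log_pos (by linarith)
  set J : ℤ → Set ℕ := fun r => {m | (Q : ℤ) ∣ (m : ℤ) - h ∧
    (∃ i ∈ Sk Y u k r, n i ≤ m ∧ (m : ℤ) ≡ a i [ZMOD (n i : ℤ)]) ∧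
    ¬ ∃ i ∈ Sk Y u k0 r, (m : ℤ) ≡ a i [ZMOD (n i : ℤ)]} with hJ
  have h1 : ls (New n a Y k0 ∩ {m | (Q : ℤ) ∣ (m : ℤ) - h}) x ≤ ∑ r ∈ Rk Y u k, ls (J r) x := by
    refine ls_cover x fun m hm1 hmx hm => ?_
    obtain ⟨⟨⟨i, hi, hi2, hi3⟩, hm2⟩, hmQ⟩ := hm
    have h4 := le_of_strictMono hmono hpos i
    have hik : i < k := lt_of_lt_of_le (by omega : i < x + 1) (le_max_left _ _)
    refine ⟨u i, mem_Rk.mpr ⟨i, hik, hi, rfl⟩, hmQ, ⟨i, mem_Sk.mpr ⟨hik, hi, rfl⟩, hi2, hi3⟩, ?_⟩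
    rintro ⟨j, hj, hj2⟩
    rw [mem_Sk] at hj
    exact hm2 ⟨j, hj.2.1, hj.1, hj2⟩
  have h2 : ∀ r ∈ Rk Y u k, ls (J r) x ≤ ((W + K : ℕ) : ℝ) * (Real.log X / c) *
      (dn (HS n a Q h (Sk Y u k r)) - dn (HS n a Q h (Sk Y u k0 r))) := by
    intro r _
    obtain ⟨A, hA, hE⟩ := ls_fin (J r) x
    rw [hE]
    -- the size of `W m - r`
    have hN : ∀ m ∈ A, 0 < (W : ℤ) * m - r ∧ (W : ℤ) * m - r ≤ ((W + K : ℕ) : ℤ) * m := by
      intro m hm
      rw [hA] at hm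
      obtain ⟨_, _, ⟨i, hi, hi2, hi3⟩, _⟩ := hm
      rw [mem_Sk] at hi
      obtain ⟨hik, hiY, hir⟩ := hi
      have e1 := hlo i hiY
      have e2 := hhi i hiY
      rw [hir] at e1 e2
      have e3 : (n i : ℤ) ≤ m := by exact_mod_cast hi2
      have e4 : (W : ℤ) * n i ≤ W * m := mul_le_mul_of_nonneg_left e3 (by positivity)
      have e5 : (K : ℤ) * n i ≤ K * m := mul_le_mul_of_nonneg_left e3 (by positivity)
      constructor
      · linarith
      · push_cast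
        linarith
    have hpk := pack (Q := Q) (h := h) (u := r) (X := X) hpos hW (Sk_mono hk0k r)
      (fun i hi => by
        rw [mem_Sk] at hi
        have := hdiv i hi.2.1
        rwa [hi.2.2] at this)
      (fun i hi => hX i (mem_Sk.mp hi).1) A
      (fun m hm => ((hA m).mp hm).2.1) (fun m hm => (hN m hm).1)
      (fun m hm => by
        have e1 := (hN m hm).2
        have e2 : ((W + K : ℕ) : ℤ) * m ≤ ((W + K : ℕ) : ℤ) * x :=
          mul_le_mul_of_nonneg_left (by exact_mod_cast ((hA m).mp hm).1.2) (by positivity)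
        have e3 : ((X : ℕ) : ℤ) = ((W + K : ℕ) : ℤ) * x := by rw [hXdef]; push_cast; ring
        rw [e3]
        exact e1.trans e2)
      (fun m hm => by
        obtain ⟨i, hi, _, hi3⟩ := ((hA m).mp hm).2.2.1
        exact ⟨i, hi, hi3⟩)
      (fun m hm => ((hA m).mp hm).2.2.2)
    have hm2 := hmert X (W * Q) hx
    set Δ : ℝ := dn (HS n a Q h (Sk Y u k r)) - dn (HS n a Q h (Sk Y u k0 r)) with hΔ
    set s : ℝ := ∑ m ∈ A, 1 / (((W : ℤ) * m - r : ℤ) : ℝ) with hs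
    have hs0 : 0 ≤ s := Finset.sum_nonneg fun m hm => by
      have e1 : (0 : ℝ) < (((W : ℤ) * m - r : ℤ) : ℝ) := by exact_mod_cast (hN m hm).1
      positivity
    have hs1 : s ≤ Real.log X / c * Δ := by
      have e1 : s * (c / Real.log X) ≤ Δ := (mul_le_mul_of_nonneg_left hm2 hs0).trans hpk
      have e2 : s = (Real.log X / c) * (s * (c / Real.log X)) := by field_simp
      rw [e2]
      exact mul_le_mul_of_nonneg_left e1 (by positivity)
    have hs2 : ∑ m ∈ A, (1 : ℝ) / m ≤ ((W + K : ℕ) : ℝ) * s := by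
      rw [hs, Finset.mul_sum]
      refine Finset.sum_le_sum fun m hm => ?_
      have e1 : (0 : ℝ) < (((W : ℤ) * m - r : ℤ) : ℝ) := by exact_mod_cast (hN m hm).1
      have e2 : (((W : ℤ) * m - r : ℤ) : ℝ) ≤ ((W + K : ℕ) : ℝ) * m := by
        exact_mod_cast (hN m hm).2
      have e3 : (0 : ℝ) < m := by
        have := ((hA m).mp hm).1.1
        exact_mod_cast this
      rw [mul_one_div, div_le_div_iff₀ e3 e1]
      linarith
    calc ∑ m ∈ A, (1 : ℝ) / m ≤ ((W + K : ℕ) : ℝ) * s := hs2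
      _ ≤ ((W + K : ℕ) : ℝ) * (Real.log X / c * Δ) := mul_le_mul_of_nonneg_left hs1 (by positivity)
      _ = _ := by ring
  have h3 : ∑ r ∈ Rk Y u k, (dn (HS n a Q h (Sk Y u k r)) - dn (HS n a Q h (Sk Y u k0 r))) ≤ δ := by
    rw [Finset.sum_sub_distrib, ← sig_eq (Subset.refl _), ← sig_eq (Rk_mono hk0k)]
    exact hk k hk0k
  calc ls (New n a Y k0 ∩ {m | (Q : ℤ) ∣ (m : ℤ) - h}) x
      ≤ ∑ r ∈ Rk Y u k, ls (J r) x := h1
    _ ≤ ∑ r ∈ Rk Y u k, ((W + K : ℕ) : ℝ) * (Real.log X / c) *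
      (dn (HS n a Q h (Sk Y u k r)) - dn (HS n a Q h (Sk Y u k0 r))) := Finset.sum_le_sum h2
    _ = ((W + K : ℕ) : ℝ) * (Real.log X / c) *
      ∑ r ∈ Rk Y u k, (dn (HS n a Q h (Sk Y u k r)) - dn (HS n a Q h (Sk Y u k0 r))) := by
        rw [Finset.mul_sum]
    _ ≤ _ := mul_le_mul_of_nonneg_left h3 (by positivity)

/-- When the total density of the centres is large, the residue class modulo `Q` is almost covered. -/
lemma class_covered (hpos : ∀ i, 0 < n i) {Y : Set ℕ} {W : ℕ}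
    {u : ℕ → ℤ} (hdiv : ∀ i ∈ Y, (n i : ℤ) ∣ W * a i - u i)
    {Q : ℕ} (hQ : 0 < Q)
    (hsep : ∀ i ∈ Y, ∀ j ∈ Y, u i ≠ u j → ((Nat.gcd (n i) (n j) : ℕ) : ℤ) ∣ a i - a j →
      Nat.gcd (n i) (n j) ∣ Q)
    (hsepW : ∀ p, p.Prime → p ∣ W → ∀ i ∈ Y, ∀ j ∈ Y, u i ≠ u j →
      ¬ p ^ (Q.factorization p + 1) ∣ Int.gcd ((Nat.gcd (n i) (n j) : ℕ) : ℤ) (u i - u j))
    {h : ℤ} {k0 : ℕ} {δ : ℝ} (hδ : 0 < δ) (hk : 1 / δ ≤ sig n a Y u Q h k0) :
    ∀ᶠ x : ℕ in atTop, ls (New n a Y k0 ∩ {m | (Q : ℤ) ∣ (m : ℤ) - h}) x ≤ 2 * δ * Real.log x := by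
  set L : ℕ := ∏ i ∈ range k0, n i with hL
  have hL0 : 0 < L := prod_pos fun i _ => hpos i
  set R : Finset ℤ := Rk Y u k0 with hR
  have hper : ∀ r, Per L (HS n a Q h (Sk Y u k0 r)) := fun r =>
    HS_per_prod fun i hi => mem_range.mpr (mem_Sk.mp hi).1
  have hnone := dn_none (R := R) (F := fun r => HS n a Q h (Sk Y u k0 r)) hL0 (fun r _ => hper r)
    (fun r _ r' _ hne => by
      refine sep2 hpos hQ (W := W) (u := r) (u' := r') ?_ ?_ ?_ ?_
      · intro i hi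
        rw [mem_Sk] at hi
        have := hdiv i hi.2.1
        rwa [hi.2.2] at this
      · intro i hi
        rw [mem_Sk] at hi
        have := hdiv i hi.2.1
        rwa [hi.2.2] at this
      · rintro i hi j hj ⟨y, hy, hy'⟩
        rw [mem_Sk] at hi hj
        refine hsep i hi.2.1 j hj.2.1 (by rw [hi.2.2, hj.2.2]; exact hne) ?_
        have h1 : ((Nat.gcd (n i) (n j) : ℕ) : ℤ) ∣ y - a i :=
          (by exact_mod_cast Nat.gcd_dvd_left (n i) (n j) :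
            ((Nat.gcd (n i) (n j) : ℕ) : ℤ) ∣ (n i : ℤ)).trans hy.symm.dvd
        have h2 : ((Nat.gcd (n i) (n j) : ℕ) : ℤ) ∣ y - a j :=
          (by exact_mod_cast Nat.gcd_dvd_right (n i) (n j) :
            ((Nat.gcd (n i) (n j) : ℕ) : ℤ) ∣ (n j : ℤ)).trans hy'.symm.dvd
        have h3 := dvd_sub h2 h1
        have h4 : (y - a j) - (y - a i) = a i - a j := by ring
        rwa [h4] at h3
      · intro p hp hpW i hi j hj
        rw [mem_Sk] at hi hj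
        have h1 := hsepW p hp hpW i hi.2.1 j hj.2.1 (by rw [hi.2.2, hj.2.2]; exact hne)
        rwa [hi.2.2, hj.2.2] at h1)
  set E : ℤ → Prop := fun z => ¬ ∃ r ∈ R, HS n a Q h (Sk Y u k0 r) z with hE
  have hEper : Per L E := (Per.exists fun r _ => hper r).not
  have hEd : dn E ≤ δ := by
    have h1 : dn E * (1 / δ) ≤ 1 :=
      (mul_le_mul_of_nonneg_left hk (dn_nonneg E)).trans hnone
    have h2 : dn E = dn E * (1 / δ) * δ := by field_simp
    rw [h2]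
    calc dn E * (1 / δ) * δ ≤ 1 * δ := mul_le_mul_of_nonneg_right h1 hδ.le
      _ = δ := one_mul _
  set F : ℤ → Prop := fun y => ∃ t : ℤ, y = h + Q * t ∧ E t with hF
  have hFper : Per (Q * L) F := per_lin hEper h
  have hFd : dn F ≤ δ := by
    rw [hF, dn_lin hL0 hEper hQ h]
    have h1 : (1 : ℝ) ≤ Q := by exact_mod_cast hQ
    have h2 := dn_nonneg E
    exact (div_le_self h2 h1).trans hEd
  have hlim := ls_per (Nat.mul_pos hQ hL0) hFper
  filter_upwards [hlim.eventually_lt_const (show dn F < 2 * δ by linarith),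
    log_atTop.eventually_gt_atTop 0] with x h1 h2
  rw [div_lt_iff₀ h2] at h1
  refine le_trans (ls_mono x fun m _ _ hm => ?_) h1.le
  obtain ⟨⟨_, hm2⟩, hmQ⟩ := hm
  obtain ⟨t, ht⟩ := hmQ
  refine ⟨t, by linarith, ?_⟩
  rintro ⟨r, _, i, hi, h3⟩
  rw [mem_Sk] at hi
  refine hm2 ⟨i, hi.2.1, hi.1, ?_⟩
  have h4 : (m : ℤ) = h + Q * t := by linarith
  rw [h4]
  exact h3

/-- Sets of classes with rational centres such that classes with different centres which meet have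
moduli with bounded gcd. -/
theorem Approx.of_centred (hmono : StrictMono n) (hpos : ∀ i, 0 < n i) {Y : Set ℕ} {W K G : ℕ}
    (hW : 0 < W) {u : ℕ → ℤ} (hdiv : ∀ i ∈ Y, (n i : ℤ) ∣ W * a i - u i)
    (hlo : ∀ i ∈ Y, -((K : ℤ) * n i) ≤ u i) (hhi : ∀ i ∈ Y, u i < (W : ℤ) * n i)
    (hsep : ∀ i ∈ Y, ∀ j ∈ Y, u i ≠ u j → ((Nat.gcd (n i) (n j) : ℕ) : ℤ) ∣ a i - a j →
      Nat.gcd (n i) (n j) ≤ G)
    (hsepW : ∀ p, p.Prime → p ∣ W → ∀ i ∈ Y, ∀ j ∈ Y, u i ≠ u j →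
      ¬ p ^ G ∣ Int.gcd ((Nat.gcd (n i) (n j) : ℕ) : ℤ) (u i - u j)) :
    Approx n a Y := by
  set Q : ℕ := G.factorial * W ^ G with hQdef
  have hQ : 0 < Q := Nat.mul_pos (Nat.factorial_pos G) (pow_pos hW G)
  have hsepQ : ∀ i ∈ Y, ∀ j ∈ Y, u i ≠ u j → ((Nat.gcd (n i) (n j) : ℕ) : ℤ) ∣ a i - a j →
      Nat.gcd (n i) (n j) ∣ Q := by
    intro i hi j hj hne hd
    exact (Nat.dvd_factorial (Nat.gcd_pos_of_pos_left _ (hpos i)) (hsep i hi j hj hne hd)).trans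
      (Dvd.intro _ rfl)
  have hsepWQ : ∀ p, p.Prime → p ∣ W → ∀ i ∈ Y, ∀ j ∈ Y, u i ≠ u j →
      ¬ p ^ (Q.factorization p + 1) ∣ Int.gcd ((Nat.gcd (n i) (n j) : ℕ) : ℤ) (u i - u j) := by
    intro p hp hpW i hi j hj hne hd
    refine hsepW p hp hpW i hi j hj hne (Dvd.dvd.trans (pow_dvd_pow p ?_) hd)
    have h1 : p ^ G ∣ Q := (pow_dvd_pow_of_dvd hpW G).trans (Dvd.intro_left _ rfl)
    have h2 := (hp.pow_dvd_iff_le_factorization hQ.ne').mp h1
    omega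
  obtain ⟨c, hc, hmert⟩ := mert
  intro ε hε
  have hQ' : (0 : ℝ) < Q := by exact_mod_cast hQ
  have hWK : (0 : ℝ) < ((W + K : ℕ) : ℝ) := by exact_mod_cast (by omega : 0 < W + K)
  -- one class
  have hclass : ∀ h : ℕ, ∃ k0 : ℕ, ∀ k, k0 ≤ k → ∀ᶠ x : ℕ in atTop,
      ls (New n a Y k ∩ {m | (Q : ℤ) ∣ (m : ℤ) - (h : ℤ)}) x ≤ ε / Q * Real.log x := by
    intro h
    by_cases hb : BddAbove (Set.range (sig n a Y u Q (h : ℤ)))
    · -- bounded case
      set δ : ℝ := ε * c / (2 * ((W + K : ℕ) : ℝ) * Q) with hδ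
      have hδ0 : 0 < δ := by positivity
      have hlim := tendsto_atTop_ciSup (sig_mono (a := a) (u := u) (Y := Y) (Q := Q) (h := (h : ℤ)) hpos) hb
      set s : ℝ := ⨆ k, sig n a Y u Q (h : ℤ) k with hs
      obtain ⟨k0, hk0⟩ := eventually_atTop.mp (hlim.eventually (lt_mem_nhds
        (show s - δ < s by linarith)))
      refine ⟨k0, fun k1 hk1 => ?_⟩
      have hk : ∀ k, k1 ≤ k → sig n a Y u Q (h : ℤ) k - sig n a Y u Q (h : ℤ) k1 ≤ δ := by
        intro k _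
        have h1 : sig n a Y u Q (h : ℤ) k ≤ s := le_ciSup hb k
        have h2 := hk0 k1 hk1
        linarith
      filter_upwards [eventually_ge_atTop (2 : ℕ), eventually_ge_atTop (n k1),
        eventually_ge_atTop (W + K)] with x hx1 hx2 hx3
      have hx0 : (0 : ℝ) < x := by exact_mod_cast (by omega : 0 < x)
      have h3 := class_bound hmono hpos hW hdiv hlo hhi hc hmert hk (x := x)
        (by nlinarith [Nat.pos_of_ne_zero (show W + K ≠ 0 by omega)])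
        (fun i hi => by
          have e1 := hmono hi
          nlinarith [Nat.pos_of_ne_zero (show W + K ≠ 0 by omega)])
      refine h3.trans ?_
      have h4 : Real.log (((W + K) * x : ℕ) : ℝ) ≤ 2 * Real.log x := by
        rw [Nat.cast_mul, Real.log_mul hWK.ne' hx0.ne']
        have : Real.log ((W + K : ℕ) : ℝ) ≤ Real.log x :=
          Real.log_le_log hWK (by exact_mod_cast hx3)
        linarith
      calc ((W + K : ℕ) : ℝ) * (Real.log (((W + K) * x : ℕ) : ℝ) / c) * δ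
          ≤ ((W + K : ℕ) : ℝ) * (2 * Real.log x / c) * δ := by gcongr
        _ = ε / Q * Real.log x := by
            rw [hδ]
            field_simp
    · -- unbounded case
      set δ : ℝ := ε / (2 * Q) with hδ
      have hδ0 : 0 < δ := by positivity
      obtain ⟨k0, hk0⟩ : ∃ k0, 1 / δ ≤ sig n a Y u Q (h : ℤ) k0 := by
        rw [not_bddAbove_iff] at hb
        obtain ⟨_, ⟨k0, rfl⟩, hk0⟩ := hb (1 / δ)
        exact ⟨k0, hk0.le⟩
      refine ⟨k0, fun k hk => ?_⟩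
      have h1 := class_covered (h := (h : ℤ)) hpos hdiv hQ hsepQ hsepWQ hδ0
        (hk0.trans (sig_mono hpos hk))
      filter_upwards [h1] with x hx
      refine hx.trans (le_of_eq ?_)
      rw [hδ]
      field_simp
  choose k0 hk0 using hclass
  set k : ℕ := (range Q).sup k0 with hk
  refine ⟨k, ?_⟩
  have hall : ∀ᶠ x : ℕ in atTop, ∀ h ∈ range Q,
      ls (New n a Y k ∩ {m | (Q : ℤ) ∣ (m : ℤ) - (h : ℤ)}) x ≤ ε / Q * Real.log x := by
    rw [Filter.eventually_all_finset]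
    intro h hh
    exact hk0 h k (Finset.le_sup hh)
  filter_upwards [hall] with x hx
  have h1 : ls (New n a Y k) x
      ≤ ∑ h ∈ range Q, ls (New n a Y k ∩ {m | (Q : ℤ) ∣ (m : ℤ) - (h : ℤ)}) x := by
    refine ls_cover x fun m _ _ hm => ?_
    refine ⟨m % Q, mem_range.mpr (Nat.mod_lt _ hQ), hm, ?_⟩
    change (Q : ℤ) ∣ (m : ℤ) - ((m % Q : ℕ) : ℤ)
    push_cast
    exact Int.dvd_self_sub_emod
  refine h1.trans ((Finset.sum_le_sum hx).trans (le_of_eq ?_))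
  rw [Finset.sum_const, card_range, nsmul_eq_mul]
  field_simp

end Pool.Agent.E25C
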